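import Pool.Agent.W927.MT.Lab0

/-!
Elementary facts about the structure of lines and children.
-/

namespace Pool.Agent.W927.MT

open MeasureTheory

section

variable {X : Type} [MeasurableSpace X] {R : X → X → Prop} (S : Str X R)

theorem U_Gd0 {v : X} (hv : v ∈ S.U) : v ∈ S.Gd := by
  have := hv false 0
  rwa [zz_zero] at this

theorem U_σ0 {v : X} (hv : v ∈ S.U) (j : Bool) : S.σ j v ∈ S.U := by
  intro j' k
  by_cases h : j' = !j
  · subst h
    rw [← zz_succ]; exact hv j (k + 1)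
  · have h : j' = j := by cases j <;> cases j' <;> simp_all
    subst h
    cases k with
    | zero => rw [zz_zero]; have := hv j' 1; rwa [zz_succ, zz_zero] at this
    | succ k => rw [zz_succ, S.inv v (U_Gd0 S hv)]; exact hv _ k

theorem σ_U0 {v : X} (hv : v ∈ S.Gd) (j : Bool) (h : S.σ j v ∈ S.U) : v ∈ S.U := by
  have := U_σ0 S h j
  rwa [S.inv v hv] at this

theorem zz_U0 {v : X} (hv : v ∈ S.U) (j : Bool) (k : ℕ) : zz S.σ j k v ∈ S.U :=
  zz_mem (fun v hv j => U_σ0 S hv j) hv j k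

theorem Vs_zero : S.Vs 0 = Set.univ := rfl

theorem mem_Vs_succ {k : ℕ} {v : X} : v ∈ S.Vs (k + 1) ↔ v ∈ S.U ∧ ∀ i, S.ch i v ∈ S.Vs k :=
  Iff.rfl

theorem Vs_one {v : X} : v ∈ S.Vs 1 ↔ v ∈ S.U := by
  rw [mem_Vs_succ, Vs_zero]; simp

theorem Vs_U {k : ℕ} {v : X} (h : v ∈ S.Vs (k + 1)) : v ∈ S.U := h.1

theorem Vs_succ_sub (k : ℕ) : S.Vs (k + 1) ⊆ S.Vs k := by
  induction k with
  | zero => intro v _; exact Set.mem_univ v
  | succ k ih =>
    rintro v ⟨h1, h2⟩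
    exact ⟨h1, fun i => ih (h2 i)⟩

theorem Vs_anti {k l : ℕ} (h : k ≤ l) : S.Vs l ⊆ S.Vs k := by
  induction l, h using Nat.le_induction with
  | base => exact subset_rfl
  | succ l _ ih => exact (Vs_succ_sub S l).trans ih

theorem Vs_σ (k : ℕ) : ∀ v ∈ S.U, ∀ j, (S.σ j v ∈ S.Vs k ↔ v ∈ S.Vs k) ∧
    ∀ i, (S.ch i (S.σ j v) ∈ S.Vs k ↔ S.ch i v ∈ S.Vs k) := by
  induction k with
  | zero =>
    intro v _ j
    exact ⟨⟨fun _ => trivial, fun _ => trivial⟩, fun i => ⟨fun _ => trivial, fun _ => trivial⟩⟩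
  | succ k ih =>
    have hA : ∀ v ∈ S.U, ∀ j, (S.σ j v ∈ S.Vs (k + 1) ↔ v ∈ S.Vs (k + 1)) := by
      intro v hv j
      rw [mem_Vs_succ, mem_Vs_succ]
      constructor
      · rintro ⟨-, h⟩
        exact ⟨hv, fun i => ((ih v hv j).2 i).1 (h i)⟩
      · rintro ⟨-, h⟩
        exact ⟨U_σ0 S hv j, fun i => ((ih v hv j).2 i).2 (h i)⟩
    intro v hv j
    refine ⟨hA v hv j, fun i => ?_⟩
    have hvG := U_Gd0 S hv
    rw [← S.comm v hvG i j]
    by_cases hw : S.ch i v ∈ S.U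
    · exact hA _ hw j
    · have hw2 : S.σ j (S.ch i v) ∉ S.U := by
        intro h
        have h2 := U_σ0 S h j
        have h3 : S.σ j (S.σ j (S.ch i v)) = S.ch i v := by
          rw [S.comm v hvG i j, S.comm _ (U_Gd0 S (U_σ0 S hv j)) i j, S.inv v hvG]
        rw [h3] at h2
        exact hw h2
      exact ⟨fun h => absurd (Vs_U S h) hw2, fun h => absurd (Vs_U S h) hw⟩

theorem Vinf_U0 {v : X} (hv : v ∈ S.Vinf) : v ∈ S.U := (Vs_one S).1 (hv 1)

theorem not_Vinf {v : X} (hv : v ∉ S.Vinf) : ∃ k, v ∉ S.Vs (k + 1) := by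
  by_contra h
  push Not at h
  refine hv fun k => ?_
  exact Vs_anti S (Nat.le_succ k) (h k)

theorem N_spec {v : X} (hv : v ∉ S.Vinf) (k : ℕ) :
    S.N v = k ↔ v ∈ S.Vs k ∧ v ∉ S.Vs (k + 1) := by
  classical
  have h := not_Vinf S hv
  unfold Str.N
  rw [dif_pos h, Nat.find_eq_iff]
  constructor
  · rintro ⟨h1, h2⟩
    refine ⟨?_, h1⟩
    cases k with
    | zero => exact Set.mem_univ v
    | succ k => exact not_not.1 (h2 k (Nat.lt_succ_self k))
  · rintro ⟨h1, h2⟩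
    exact ⟨h2, fun l hl => not_not.2 (Vs_anti S (by omega) h1)⟩

theorem N_Vinf {v : X} (hv : v ∈ S.Vinf) : S.N v = 0 := by
  classical
  unfold Str.N
  rw [dif_neg]
  rintro ⟨k, hk⟩
  exact hk (hv _)

theorem N_out0 {v : X} (hv : v ∉ S.U) : S.N v = 0 := by
  have h : v ∉ S.Vinf := fun h => hv (Vinf_U0 S h)
  rw [N_spec S h]
  exact ⟨Set.mem_univ v, fun h => hv ((Vs_one S).1 h)⟩

theorem Vinf_σ0 {v : X} (hv : v ∈ S.U) (j : Bool) : S.σ j v ∈ S.Vinf ↔ v ∈ S.Vinf :=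
  forall_congr' fun k => (Vs_σ S k v hv j).1

theorem N_σ0 {v : X} (hv : v ∈ S.U) (j : Bool) : S.N (S.σ j v) = S.N v := by
  by_cases h : v ∈ S.Vinf
  · rw [N_Vinf S h, N_Vinf S ((Vinf_σ0 S hv j).2 h)]
  · have h2 : S.σ j v ∉ S.Vinf := fun h' => h ((Vinf_σ0 S hv j).1 h')
    rw [N_spec S h2, (Vs_σ S _ v hv j).1, (Vs_σ S _ v hv j).1]
    exact (N_spec S h _).1 rfl

theorem t_out0 {v : X} (hv : v ∉ S.U) : S.t v = false := by
  unfold Str.t; rw [if_neg (fun h => hv h.1)]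

theorem t_true {v : X} : S.t v = true ↔ v ∈ S.U ∧ ∃ k, S.ch true v ∉ S.Vs k ∧
    S.ch false v ∈ S.Vs k := by
  unfold Str.t
  split_ifs with h
  · simp [h]
  · simp [h]

theorem t_σ0 {v : X} (hv : v ∈ S.U) (j : Bool) : S.t (S.σ j v) = S.t v := by
  rw [Bool.eq_iff_iff, t_true, t_true]
  constructor
  · rintro ⟨-, k, h1, h2⟩
    exact ⟨hv, k, fun h => h1 (((Vs_σ S k v hv j).2 true).2 h), ((Vs_σ S k v hv j).2 false).1 h2⟩
  · rintro ⟨-, k, h1, h2⟩
    exact ⟨U_σ0 S hv j, k, fun h => h1 (((Vs_σ S k v hv j).2 true).1 h),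
      ((Vs_σ S k v hv j).2 false).2 h2⟩

theorem s_σ0 {v : X} (hv : v ∈ S.U) (j : Bool) : S.s (S.σ j v) = S.σ j (S.s v) := by
  unfold Str.s
  rw [t_σ0 S hv, S.comm v (U_Gd0 S hv)]

theorem s_spec {v : X} (hv : v ∈ S.U) (hv' : v ∉ S.Vinf) :
    ∃ k, S.N v = k + 1 ∧ S.s v ∈ S.Vs k ∧ S.s v ∉ S.Vs (k + 1) := by
  obtain ⟨h1, h2⟩ := (N_spec S hv' _).1 rfl
  generalize hN : S.N v = n at h1 h2
  cases n with
  | zero => exact absurd ((Vs_one S).2 hv) h2
  | succ k =>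
    refine ⟨k, rfl, ?_⟩
    have h3 : ∀ i, S.ch i v ∈ S.Vs k := h1.2
    have h4 : ∃ i, S.ch i v ∉ S.Vs (k + 1) := by
      by_contra hh
      push Not at hh
      exact h2 ⟨hv, hh⟩
    refine ⟨h3 _, ?_⟩
    intro hs
    unfold Str.s at hs
    cases ht : S.t v
    · rw [ht] at hs
      obtain ⟨i, hi⟩ := h4
      cases i
      · exact hi hs
      · have : S.t v = true := (t_true S).2 ⟨hv, k + 1, hi, hs⟩
        rw [ht] at this; exact absurd this (by decide)
    · rw [ht] at hs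
      obtain ⟨-, l, h5, h6⟩ := (t_true S).1 ht
      obtain ⟨i, hi⟩ := h4
      cases i
      · have hl : l ≤ k := by
          by_contra hh
          exact hi (Vs_anti S (by omega) h6)
        exact h5 (Vs_anti S hl (h3 true))
      · exact hi hs

theorem s_Vinf0 {v : X} (hv : v ∈ S.U) (hv' : v ∉ S.Vinf) : S.s v ∉ S.Vinf := by
  obtain ⟨k, -, -, h⟩ := s_spec S hv hv'
  exact fun h' => h (h' _)

theorem N_s0 {v : X} (hv : v ∈ S.U) (hv' : v ∉ S.Vinf) : S.N (S.s v) + 1 = S.N v := by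
  obtain ⟨k, h1, h2, h3⟩ := s_spec S hv hv'
  rw [h1, (N_spec S (s_Vinf0 S hv hv') k).2 ⟨h2, h3⟩]

theorem N_pos0 {v : X} (hv : v ∈ S.U) (hv' : v ∉ S.Vinf) : 0 < S.N v := by
  obtain ⟨k, h1, -⟩ := s_spec S hv hv'
  omega

theorem s_U0 {v : X} (hv : v ∈ S.U) (hv' : v ∉ S.Vinf) (h : 2 ≤ S.N v) : S.s v ∈ S.U := by
  obtain ⟨k, h1, h2, -⟩ := s_spec S hv hv'
  exact (Vs_one S).1 (Vs_anti S (by omega) h2)

theorem s_out0 {v : X} (hv : v ∈ S.U) (hv' : v ∉ S.Vinf) (h : S.N v = 1) : S.s v ∉ S.U := by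
  obtain ⟨k, h1, -, h3⟩ := s_spec S hv hv'
  have : k = 0 := by omega
  subst this
  exact fun h' => h3 ((Vs_one S).2 h')

theorem p_s0 {v : X} (hv : v ∈ S.U) : S.p (S.s v) = v := S.par v (U_Gd0 S hv) _

theorem chain0 {v : X} (hv : v ∈ S.U) (hv' : v ∉ S.Vinf) (i : ℕ)
    (hi : i + 1 ≤ S.N v) :
    S.s^[i] v ∈ S.U ∧ S.s^[i] v ∉ S.Vinf ∧ S.N (S.s^[i] v) + i = S.N v := by
  induction i with
  | zero => exact ⟨hv, hv', rfl⟩
  | succ i ih =>
    obtain ⟨h1, h2, h3⟩ := ih (by omega)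
    rw [Function.iterate_succ_apply']
    refine ⟨s_U0 S h1 h2 (by omega), s_Vinf0 S h1 h2, ?_⟩
    have := N_s0 S h1 h2
    omega

theorem chain_σ0 {v : X} (hv : v ∈ S.U) (hv' : v ∉ S.Vinf) (j : Bool) (i : ℕ)
    (hi : i + 1 ≤ S.N v) : S.s^[i] (S.σ j v) = S.σ j (S.s^[i] v) := by
  induction i with
  | zero => rfl
  | succ i ih =>
    obtain ⟨h1, h2, h3⟩ := chain0 S hv hv' i (by omega)
    rw [Function.iterate_succ_apply', Function.iterate_succ_apply', ih (by omega),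
      s_σ0 S h1]

theorem p_chain {v : X} (hv : v ∈ S.U) (hv' : v ∉ S.Vinf) (i : ℕ)
    (hi : i + 1 ≤ S.N v) : S.p^[i] (S.s^[i] v) = v := by
  induction i with
  | zero => rfl
  | succ i ih =>
    obtain ⟨h1, h2, h3⟩ := chain0 S hv hv' i (by omega)
    rw [Function.iterate_succ_apply' S.s, Function.iterate_succ_apply S.p, p_s0 S h1,
      ih (by omega)]

theorem Am_σ1 {v : X} (hv : v ∈ S.U) (j : Bool) (m : ℕ) (h : v ∈ S.Am m) :
    S.σ j v ∈ S.Am m := by
  obtain ⟨h1, h2, u, h3, h4, h5, h6⟩ := h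
  refine ⟨U_σ0 S hv j, by rw [N_σ0 S hv, h2], S.σ j u, U_σ0 S h3 j,
    fun h => h4 ((Vinf_σ0 S h3 j).1 h), by rw [N_σ0 S h3, h5], ?_⟩
  rw [chain_σ0 S h3 h4 j m (by omega), h6]

theorem Am_σ0 {v : X} (hv : v ∈ S.U) (j : Bool) (m : ℕ) :
    S.σ j v ∈ S.Am m ↔ v ∈ S.Am m := by
  refine ⟨fun h => ?_, Am_σ1 S hv j m⟩
  have := Am_σ1 S (U_σ0 S hv j) j m h
  rwa [S.inv v (U_Gd0 S hv)] at this

theorem measurable_zz (j : Bool) (k : ℕ) : Measurable (zz S.σ j k) := by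
  induction k with
  | zero =>
    have : zz S.σ j 0 = fun v => v := by funext v; exact zz_zero j v
    rw [this]; exact measurable_id
  | succ k ih =>
    have : zz S.σ j (k + 1) = fun v => S.σ (lt j k) (zz S.σ j k v) := by
      funext v; exact zz_succ' j k v
    rw [this]
    exact (S.mσ _).comp ih

theorem measurableSet_U : MeasurableSet S.U := by
  have : S.U = ⋂ j, ⋂ k, (zz S.σ j k) ⁻¹' S.Gd := by
    ext v; simp [Str.U]
  rw [this]
  exact MeasurableSet.iInter fun j => MeasurableSet.iInter fun k => measurable_zz S j k S.mGd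

theorem measurableSet_Vs (k : ℕ) : MeasurableSet (S.Vs k) := by
  induction k with
  | zero => exact MeasurableSet.univ
  | succ k ih =>
    have : S.Vs (k + 1) = S.U ∩ ⋂ i, (S.ch i) ⁻¹' S.Vs k := by
      ext v; simp [mem_Vs_succ]
    rw [this]
    exact (measurableSet_U S).inter (MeasurableSet.iInter fun i => S.mch i ih)

theorem measurableSet_Vinf : MeasurableSet S.Vinf := by
  have : S.Vinf = ⋂ k, S.Vs k := by ext v; simp [Str.Vinf]
  rw [this]
  exact MeasurableSet.iInter fun k => measurableSet_Vs S k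

theorem measurable_N : Measurable S.N := by
  classical
  refine measurable_natFind (P := fun m => (S.Vs (m + 1))ᶜ)
    (fun m => (measurableSet_Vs S _).compl) _ ?_
  intro v m
  unfold Str.N
  by_cases h : ∃ m, v ∉ S.Vs (m + 1)
  · rw [dif_pos h, Nat.find_eq_iff]
    constructor
    · rintro ⟨h1, h2⟩
      exact Or.inl ⟨h1, h2⟩
    · rintro (⟨h1, h2⟩ | ⟨-, h2⟩)
      · exact ⟨h1, h2⟩
      · obtain ⟨l, hl⟩ := h; exact absurd hl (h2 l)
  · rw [dif_neg h]
    constructor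
    · rintro rfl
      exact Or.inr ⟨rfl, fun l hl => h ⟨l, hl⟩⟩
    · rintro (⟨h1, h2⟩ | ⟨h1, -⟩)
      · exact absurd ⟨m, h1⟩ h
      · exact h1.symm

theorem measurable_t : Measurable S.t := by
  refine measurable_to_countable' fun b => ?_
  have h1 : MeasurableSet {v | v ∈ S.U ∧ ∃ k, S.ch true v ∉ S.Vs k ∧ S.ch false v ∈ S.Vs k} := by
    have : {v | v ∈ S.U ∧ ∃ k, S.ch true v ∉ S.Vs k ∧ S.ch false v ∈ S.Vs k} =
        S.U ∩ ⋃ k, (((S.ch true) ⁻¹' S.Vs k)ᶜ ∩ (S.ch false) ⁻¹' S.Vs k) := by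
      ext v; simp
    rw [this]
    exact (measurableSet_U S).inter (MeasurableSet.iUnion fun k =>
      (S.mch true (measurableSet_Vs S k)).compl.inter (S.mch false (measurableSet_Vs S k)))
  cases b
  · have : S.t ⁻¹' {false} =
        {v | v ∈ S.U ∧ ∃ k, S.ch true v ∉ S.Vs k ∧ S.ch false v ∈ S.Vs k}ᶜ := by
      ext v
      rw [Set.mem_preimage, Set.mem_singleton_iff, Set.mem_compl_iff, Set.mem_ofPred_eq,
        ← t_true S, Bool.not_eq_true]
    rw [this]; exact h1.compl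
  · have : S.t ⁻¹' {true} =
        {v | v ∈ S.U ∧ ∃ k, S.ch true v ∉ S.Vs k ∧ S.ch false v ∈ S.Vs k} := by
      ext v
      rw [Set.mem_preimage, Set.mem_singleton_iff, Set.mem_ofPred_eq, ← t_true S]
    rw [this]; exact h1

theorem measurable_s : Measurable S.s := by
  have h2 : Measurable (fun p : Bool × X => S.ch p.1 p.2) :=
    measurable_from_prod_countable_right fun n => S.mch n
  exact h2.comp ((measurable_t S).prodMk measurable_id)

theorem measurableSet_Am [StandardBorelSpace X] (m : ℕ) : MeasurableSet (S.Am m) := by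
  have : S.Am m = {v | v ∈ S.U ∧ S.N v = 1 ∧ (S.p^[m] v ∈ S.U ∧ S.p^[m] v ∉ S.Vinf ∧
      S.N (S.p^[m] v) = m + 1 ∧ S.s^[m] (S.p^[m] v) = v)} := by
    ext v
    constructor
    · rintro ⟨h1, h2, u, h3, h4, h5, h6⟩
      have : S.p^[m] v = u := by rw [← h6, p_chain S h3 h4 m (by omega)]
      exact ⟨h1, h2, by rw [this]; exact ⟨h3, h4, h5, h6⟩⟩
    · rintro ⟨h1, h2, h3⟩
      exact ⟨h1, h2, _, h3⟩
  rw [this]
  have hp : Measurable (S.p^[m]) := S.mp.iterate m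
  have hs : Measurable (S.s^[m]) := (measurable_s S).iterate m
  refine (measurableSet_U S).inter (MeasurableSet.inter
    (measurable_N S (measurableSet_singleton 1)) (MeasurableSet.inter
    (hp (measurableSet_U S)) (MeasurableSet.inter (hp (measurableSet_Vinf S)).compl
    (MeasurableSet.inter (((measurable_N S).comp hp) (measurableSet_singleton (m + 1)))
    (measurableSet_eq_fun (hs.comp hp) measurable_id)))))

end

theorem facts : S_FACTS := by
  intro X _ _ R S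
  refine ⟨fun v hv => U_Gd0 S hv, fun v hv j => U_σ0 S hv j, fun v hv j h => σ_U0 S hv j h,
    fun v hv j k => zz_U0 S hv j k, fun v hv j => N_σ0 S hv j, fun v hv j => t_σ0 S hv j,
    fun v hv j => s_σ0 S hv j, fun v hv j => Vinf_σ0 S hv j, fun v hv j m => Am_σ0 S hv j m,
    fun v hv => N_out0 S hv, fun v hv => t_out0 S hv, fun v hv h => N_pos0 S hv h,
    fun v hv h => s_Vinf0 S hv h, fun v hv h => N_s0 S hv h, fun v hv h h2 => s_U0 S hv h h2,
    fun v hv h h2 => s_out0 S hv h h2, fun v hv => Vinf_U0 S hv, fun v hv => p_s0 S hv,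
    measurableSet_U S, measurableSet_Vs S, measurableSet_Vinf S, measurable_N S, measurable_t S,
    measurable_s S, measurableSet_Am S, ?_, measurable_zz S⟩
  have : S.Binf = ⋂ m, S.Am m := by ext v; simp [Str.Binf]
  rw [this]
  exact MeasurableSet.iInter fun m => measurableSet_Am S m

end Pool.Agent.W927.MT
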