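import Pool.Agent.W927.MT.Lab0

/-!
Two mass transport lemmas.
-/

namespace Pool.Agent.W927.MT

open MeasureTheory
open scoped ENNReal

section

variable {X : Type} [MeasurableSpace X] [StandardBorelSpace X] {R : X → X → Prop}

theorem Vinf_ch (S : Str X R) {v : X} (hv : v ∈ S.Vinf) (i : Bool) : S.ch i v ∈ S.Vinf := by
  intro k
  exact (hv (k + 1)).2 i

theorem null1 (h0 : S_FACTS) : S_NULL1 := by
  classical
  intro X _ _ μ _ R hR hM S
  have F := h0 X R S
  set T : Set (X × X) := {p | p.2 ∈ S.Vinf ∧ (p.1 = S.ch false p.2 ∨ p.1 = S.ch true p.2)} with hT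
  have hTm : MeasurableSet T := by
    have : T = (Prod.snd ⁻¹' S.Vinf) ∩ ({p : X × X | p.1 = S.ch false p.2} ∪
        {p | p.1 = S.ch true p.2}) := by
      ext p; simp [hT]
    rw [this]
    exact (measurable_snd F.mVinf).inter
      ((measurableSet_eq_fun measurable_fst ((S.mch false).comp measurable_snd)).union
        (measurableSet_eq_fun measurable_fst ((S.mch true).comp measurable_snd)))
  have key := hM (T.indicator 1) (measurable_one.indicator hTm)
  have hout : ∫⁻ x, ∑' y : {y // R x y}, T.indicator 1 (x, (y : X)) ∂μ ≤ μ S.Vinf := by
    calc _ ≤ ∫⁻ x, S.Vinf.indicator 1 x ∂μ := by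
          refine lintegral_mono fun x => ?_
          by_cases hx : R x (S.p x)
          · rw [tsum_eq_single (⟨S.p x, hx⟩ : {y // R x y})]
            · by_cases hm : (x, S.p x) ∈ T
              · obtain ⟨h1, h2⟩ := hm
                have hxV : x ∈ S.Vinf := by
                  rcases h2 with h2 | h2
                  · change x = S.ch false (S.p x) at h2
                    rw [h2]; exact Vinf_ch S h1 false
                  · change x = S.ch true (S.p x) at h2
                    rw [h2]; exact Vinf_ch S h1 true
                rw [Set.indicator_of_mem hxV]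
                exact Set.indicator_le_self' (fun _ _ => zero_le) _
              · rw [Set.indicator_of_notMem hm]; exact zero_le
            · rintro ⟨y, hy⟩ hne
              refine Set.indicator_of_notMem ?_ _
              rintro ⟨h1, h2⟩
              apply hne
              have hyG := F.U_Gd (F.Vinf_U h1)
              apply Subtype.ext
              change y = S.p x
              rcases h2 with h2 | h2
              · change x = S.ch false y at h2
                rw [h2]; exact (S.par y hyG false).symm
              · change x = S.ch true y at h2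
                rw [h2]; exact (S.par y hyG true).symm
          · have : ∀ y : {y // R x y}, T.indicator (1 : X × X → ℝ≥0∞) (x, (y : X)) = 0 := by
              rintro ⟨y, hy⟩
              refine Set.indicator_of_notMem ?_ _
              rintro ⟨h1, h2⟩
              apply hx
              have hyG := F.U_Gd (F.Vinf_U h1)
              have : S.p x = y := by
                rcases h2 with h2 | h2
                · change x = S.ch false y at h2
                  rw [h2]; exact S.par y hyG false
                · change x = S.ch true y at h2
                  rw [h2]; exact S.par y hyG true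
              rw [this]; exact hy
            simp [this]
      _ = μ S.Vinf := by rw [lintegral_indicator_one F.mVinf]
  have hin : 2 * μ S.Vinf ≤ ∫⁻ x, ∑' y : {y // R x y}, T.indicator 1 ((y : X), x) ∂μ := by
    calc 2 * μ S.Vinf = ∫⁻ x, 2 * S.Vinf.indicator 1 x ∂μ := by
          rw [lintegral_const_mul _ (measurable_one.indicator F.mVinf),
            lintegral_indicator_one F.mVinf]
      _ ≤ _ := by
          refine lintegral_mono fun x => ?_
          by_cases hx : x ∈ S.Vinf
          · have hxG := F.U_Gd (F.Vinf_U hx)
            let a : {y // R x y} := ⟨S.ch false x, S.Rch x hxG false⟩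
            let b : {y // R x y} := ⟨S.ch true x, S.Rch x hxG true⟩
            have hab : a ≠ b := fun h => S.chne x hxG (congrArg Subtype.val h)
            have h2 := ENNReal.sum_le_tsum
              (f := fun y : {y // R x y} => T.indicator (1 : X × X → ℝ≥0∞) ((y : X), x)) {a, b}
            rw [Finset.sum_pair hab] at h2
            have ha : T.indicator (1 : X × X → ℝ≥0∞) ((a : X), x) = 1 := by
              rw [Set.indicator_of_mem]; · rfl
              exact ⟨hx, Or.inl rfl⟩
            have hb : T.indicator (1 : X × X → ℝ≥0∞) ((b : X), x) = 1 := by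
              rw [Set.indicator_of_mem]; · rfl
              exact ⟨hx, Or.inr rfl⟩
            rw [ha, hb] at h2
            simp only [Set.indicator_of_mem hx, Pi.one_apply, mul_one]
            calc (2 : ℝ≥0∞) = 1 + 1 := by norm_num
              _ ≤ _ := h2
          · simp [Set.indicator_of_notMem hx]
  have h3 : 2 * μ S.Vinf ≤ μ S.Vinf := hin.trans (key ▸ hout)
  by_contra h4
  have h5 : μ S.Vinf ≠ ⊤ := measure_ne_top _ _
  have h6 : μ S.Vinf < 2 * μ S.Vinf := by
    rw [two_mul]
    exact ENNReal.lt_add_right h5 h4
  exact absurd h3 (not_le.2 h6)

theorem null2 (h0 : S_FACTS) : S_NULL2 := by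
  classical
  intro X _ _ μ _ R hR hM S
  have F := h0 X R S
  set T : Set (X × X) := {p | p.1 ∈ S.U ∧ p.1 ∉ S.Vinf ∧ p.2 ∈ S.Binf ∧ bt S p.1 = p.2} with hT
  have hTm : MeasurableSet T := by
    have : T = (Prod.fst ⁻¹' S.U) ∩ ((Prod.fst ⁻¹' S.Vinf)ᶜ ∩ ((Prod.snd ⁻¹' S.Binf) ∩
        {p : X × X | bt S p.1 = p.2})) := by
      ext p; simp [hT]
    rw [this]
    exact (measurable_fst F.mU).inter ((measurable_fst F.mVinf).compl.inter
      ((measurable_snd F.mBinf).inter
      (measurableSet_eq_fun ((measurable_bt F).comp measurable_fst) measurable_snd)))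
  have key := hM (T.indicator 1) (measurable_one.indicator hTm)
  have hout : ∫⁻ x, ∑' y : {y // R x y}, T.indicator 1 (x, (y : X)) ∂μ ≤ 1 := by
    calc _ ≤ ∫⁻ _, 1 ∂μ := by
          refine lintegral_mono fun x => ?_
          by_cases hx : R x (bt S x)
          · rw [tsum_eq_single (⟨bt S x, hx⟩ : {y // R x y})]
            · exact Set.indicator_le_self' (fun _ _ => zero_le) _
            · rintro ⟨y, hy⟩ hne
              refine Set.indicator_of_notMem ?_ _
              rintro ⟨h1, h2, h3, h4⟩
              exact hne (Subtype.ext h4.symm)
          · have : ∀ y : {y // R x y}, T.indicator (1 : X × X → ℝ≥0∞) (x, (y : X)) = 0 := by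
              rintro ⟨y, hy⟩
              refine Set.indicator_of_notMem ?_ _
              rintro ⟨h1, h2, h3, h4⟩
              change bt S x = y at h4
              exact hx (h4 ▸ hy)
            simp [this]
      _ = 1 := by simp
  have hin : ⊤ * μ S.Binf ≤ ∫⁻ x, ∑' y : {y // R x y}, T.indicator 1 ((y : X), x) ∂μ := by
    calc ⊤ * μ S.Binf = ∫⁻ x, S.Binf.indicator (fun _ => ⊤) x ∂μ := by
          rw [lintegral_indicator F.mBinf, lintegral_const, Measure.restrict_apply_univ]
      _ ≤ _ := by
          refine lintegral_mono fun x => ?_
          by_cases hx : x ∈ S.Binf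
          · rw [Set.indicator_of_mem hx]
            have hu : ∀ m : ℕ, ∃ u, u ∈ S.U ∧ u ∉ S.Vinf ∧ S.N u = m + 1 ∧ S.s^[m] u = x :=
              fun m => (hx m).2.2
            choose u hu1 hu2 hu3 hu4 using hu
            have hbt : ∀ m, bt S (u m) = x := by
              intro m
              unfold bt
              rw [hu3, Nat.add_sub_cancel, hu4]
            have hRu : ∀ m, R x (u m) := by
              intro m
              have := R_bt F hR (hu1 m) (hu2 m)
              rw [hbt] at this
              exact hR.symm this
            let g : ℕ → {y // R x y} := fun m => ⟨u m, hRu m⟩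
            have hg : Function.Injective g := by
              intro m n h
              have h1 : u m = u n := congrArg Subtype.val h
              have h2 := hu3 m
              rw [h1, hu3 n] at h2
              omega
            have h1 : ∑' m : ℕ, T.indicator (1 : X × X → ℝ≥0∞) ((g m : X), x) ≤
                ∑' y : {y // R x y}, T.indicator (1 : X × X → ℝ≥0∞) ((y : X), x) :=
              ENNReal.tsum_comp_le_tsum_of_injective hg _
            refine le_trans ?_ h1
            have h2 : ∀ m, T.indicator (1 : X × X → ℝ≥0∞) ((g m : X), x) = 1 := by
              intro m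
              rw [Set.indicator_of_mem]; · rfl
              exact ⟨hu1 m, hu2 m, hx, hbt m⟩
            simp only [h2]
            rw [ENNReal.tsum_const_eq_top_of_ne_zero one_ne_zero]
          · rw [Set.indicator_of_notMem hx]; exact zero_le
  have h3 : ⊤ * μ S.Binf ≤ 1 := hin.trans (key ▸ hout)
  by_contra h4
  rw [ENNReal.top_mul h4] at h3
  exact absurd h3 (by simp)

end

end Pool.Agent.W927.MT
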