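import Pool.Agent.W927.MT.Lab0

/-!
Borel orientations of broken lines and 2-colourings of even cycles.
-/

namespace Pool.Agent.W927.MT

open MeasureTheory

section

variable {X : Type} {σ : Bool → X → X} {D : Set X}

theorem zz_add (j : Bool) (m l : ℕ) (v : X) :
    zz σ j (m + l) v = zz σ (lt j m) l (zz σ j m v) := by
  induction m generalizing j v with
  | zero => rw [Nat.zero_add, zz_zero]; simp [lt]
  | succ m ih => rw [Nat.succ_add, zz_succ, ih, lt_not, ← zz_succ]

theorem lt_nn (j : Bool) (k : ℕ) : (!(lt j k)) = lt (!j) k := by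
  unfold lt; split_ifs <;> simp

theorem lt_lt (j : Bool) (k : ℕ) : lt (lt j k) k = j := by
  unfold lt; split_ifs <;> simp

/-- Going back one step, inside `D`. -/
theorem zz_backD (hi : ∀ v ∈ D, ∀ j, σ j (σ j v) = v) {v : X} {j : Bool} {k : ℕ}
    (h : zz σ j k v ∈ D) : σ (lt j k) (zz σ j (k + 1) v) = zz σ j k v := by
  rw [zz_succ', hi _ h]

/-- The reversed walk, inside `D`. -/
theorem zz_revD (hi : ∀ v ∈ D, ∀ j, σ j (σ j v) = v) {v : X} {j : Bool} {k : ℕ}
    (h : ∀ l < k, zz σ j l v ∈ D) (l : ℕ) (hl : l ≤ k) :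
    zz σ (!(lt j k)) l (zz σ j k v) = zz σ j (k - l) v := by
  induction l with
  | zero => rw [zz_zero, Nat.sub_zero]
  | succ l ih =>
    rw [zz_succ', ih (by omega), lt_nn]
    have e1 : k - l = (k - (l + 1)) + 1 := by omega
    have h1 := zz_backD hi (h (k - (l + 1)) (by omega))
    rw [e1, ← h1]
    congr 1
    have : lt (lt (!j) k) l = lt j (k - (l + 1)) := by
      unfold lt
      rcases Nat.mod_two_eq_zero_or_one k with a | a <;>
      rcases Nat.mod_two_eq_zero_or_one l with b | b
      · have : (k - (l + 1)) % 2 = 1 := by omega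
        rw [if_pos b, if_pos a, if_neg (by omega)]
      · have : (k - (l + 1)) % 2 = 0 := by omega
        rw [if_neg (by omega), if_pos a, if_pos this, Bool.not_not]
      · have : (k - (l + 1)) % 2 = 0 := by omega
        rw [if_pos b, if_neg (by omega), if_pos this, Bool.not_not]
      · have : (k - (l + 1)) % 2 = 1 := by omega
        rw [if_neg (by omega), if_neg (by omega), if_neg (by omega), Bool.not_not]
    rw [this]

/-- Folding. -/
theorem fold (hi : ∀ v ∈ D, ∀ j, σ j (σ j v) = v) (hn : ∀ v ∈ D, ∀ j, σ j v ≠ v)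
    {v : X} {j : Bool} {k : ℕ} (hD : ∀ l ≤ k, zz σ j l v ∈ D)
    (h : zz σ j k v = v) : k % 2 = 0 := by
  by_contra hk
  obtain ⟨q, rfl⟩ : ∃ q, k = 2 * q + 1 := ⟨k / 2, by omega⟩
  have key : ∀ i ≤ q, zz σ j (2 * q + 1 - i) v = zz σ j i v := by
    intro i hi'
    induction i with
    | zero => rw [Nat.sub_zero, h, zz_zero]
    | succ i ih =>
      have ih := ih (by omega)
      have e1 : 2 * q + 1 - i = (2 * q + 1 - (i + 1)) + 1 := by omega
      have h1 := zz_backD hi (hD (2 * q + 1 - (i + 1)) (by omega))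
      rw [← e1, ih] at h1
      rw [← h1, zz_succ']
      rw [lt_congr j (k := 2 * q + 1 - (i + 1)) (l := i) (by omega)]
  have h1 := key q le_rfl
  have e1 : 2 * q + 1 - q = q + 1 := by omega
  rw [e1, zz_succ'] at h1
  exact hn _ (hD q (by omega)) _ h1

/-- The walk leaves `D`. -/
def Ex (σ : Bool → X → X) (D : Set X) (j : Bool) (v : X) : Prop := ∃ k, zz σ j k v ∉ D

open Classical in
/-- The exit time. -/
noncomputable def Lx (σ : Bool → X → X) (D : Set X) (j : Bool) (v : X) : ℕ :=
  if h : Ex σ D j v then Nat.find h else 0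

/-- The last point in `D`. -/
noncomputable def en (σ : Bool → X → X) (D : Set X) (j : Bool) (v : X) : X :=
  zz σ j (Lx σ D j v - 1) v

theorem Lx_spec {j : Bool} {v : X} (h : Ex σ D j v) (k : ℕ) :
    Lx σ D j v = k ↔ zz σ j k v ∉ D ∧ ∀ l < k, zz σ j l v ∈ D := by
  classical
  unfold Lx
  rw [dif_pos h]
  refine (Nat.find_eq_iff _).trans ?_
  simp only [not_not]

theorem swap0 {v : X} {j : Bool} (hv : v ∈ D)
    (hv' : σ j v ∈ D) (h : Ex σ D j v) :
    Ex σ D (!j) (σ j v) ∧ Lx σ D (!j) (σ j v) + 1 = Lx σ D j v ∧ 2 ≤ Lx σ D j v := by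
  obtain ⟨h1, h2⟩ := (Lx_spec h _).1 rfl
  generalize Lx σ D j v = K at *
  have hK : 2 ≤ K := by
    by_contra hh
    have : K = 0 ∨ K = 1 := by omega
    rcases this with rfl | rfl
    · rw [zz_zero] at h1; exact h1 hv
    · rw [zz_succ, zz_zero] at h1; exact h1 hv'
  obtain ⟨K, rfl⟩ : ∃ L, K = L + 1 := ⟨K - 1, by omega⟩
  have hE : Ex σ D (!j) (σ j v) := ⟨K, by rw [← zz_succ]; exact h1⟩
  refine ⟨hE, ?_, hK⟩
  rw [(Lx_spec hE K).2 ⟨by rw [← zz_succ]; exact h1, fun l hl => ?_⟩]
  rw [← zz_succ]; exact h2 (l + 1) (by omega)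

theorem swap1 (hi : ∀ v ∈ D, ∀ j, σ j (σ j v) = v) {v : X} {j : Bool} (hv : v ∈ D)
    (hv' : σ j v ∈ D) (i : Bool) :
    (Ex σ D i (σ j v) ↔ Ex σ D (!i) v) ∧ (Ex σ D (!i) v → en σ D i (σ j v) = en σ D (!i) v) := by
  -- both directions for `i = !j`
  have hA : ∀ v ∈ D, σ j v ∈ D → Ex σ D j v →
      Ex σ D (!j) (σ j v) ∧ en σ D (!j) (σ j v) = en σ D j v := by
    intro v hv hv' h
    obtain ⟨h1, h2, h3⟩ := swap0 hv hv' h
    refine ⟨h1, ?_⟩
    unfold en
    have e1 : Lx σ D j v - 1 = (Lx σ D (!j) (σ j v) - 1) + 1 := by omega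
    rw [e1, zz_succ]
  have hB : ∀ v ∈ D, σ j v ∈ D → Ex σ D (!j) v →
      Ex σ D j (σ j v) ∧ en σ D j (σ j v) = en σ D (!j) v := by
    intro v hv hv' h
    obtain ⟨h1, h2⟩ := (Lx_spec h _).1 rfl
    have h0 : zz σ (!j) 0 v ∈ D := by rw [zz_zero]; exact hv
    unfold en
    generalize Lx σ D (!j) v = K at *
    have hz : ∀ k, zz σ j (k + 1) (σ j v) = zz σ (!j) k v := by
      intro k; rw [zz_succ, hi v hv]
    have hE : Ex σ D j (σ j v) := ⟨K + 1, by rw [hz]; exact h1⟩
    refine ⟨hE, ?_⟩
    rw [(Lx_spec hE (K + 1)).2 ⟨by rw [hz]; exact h1, fun l hl => ?_⟩]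
    · have hK : 1 ≤ K := by
        by_contra hh
        have : K = 0 := by omega
        subst this
        exact h1 h0
      have e1 : K + 1 - 1 = (K - 1) + 1 := by omega
      rw [e1, hz]
    · cases l with
      | zero => rw [zz_zero]; exact hv'
      | succ l => rw [hz]; exact h2 l (by omega)
  have hback : σ j (σ j v) = v := hi v hv j
  by_cases hij : i = j
  · subst hij
    refine ⟨⟨fun h => ?_, fun h => (hB v hv hv' h).1⟩, fun h => (hB v hv hv' h).2⟩
    have := (hA (σ i v) hv' (by rw [hback]; exact hv) h).1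
    rwa [hback] at this
  · have : i = !j := by cases i <;> cases j <;> simp_all
    subst this
    rw [Bool.not_not]
    refine ⟨⟨fun h => ?_, fun h => (hA v hv hv' h).1⟩, fun h => (hA v hv hv' h).2⟩
    have := (hB (σ j v) hv' (by rw [hback]; exact hv) h).1
    rwa [hback] at this

/-- The two ends are different. -/
theorem ends_ne (hi : ∀ v ∈ D, ∀ j, σ j (σ j v) = v) (hn : ∀ v ∈ D, ∀ j, σ j v ≠ v)
    {v : X} {j : Bool} (hv : v ∈ D) (hv' : σ j v ∈ D) (h1 : Ex σ D j v)
    (h2 : Ex σ D (!j) v) : en σ D j v ≠ en σ D (!j) v := by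
  intro he
  obtain ⟨a1, a2⟩ := (Lx_spec h1 _).1 rfl
  obtain ⟨b1, b2⟩ := (Lx_spec h2 _).1 rfl
  have hL := (swap0 hv hv' h1).2.2
  unfold en at he
  generalize Lx σ D j v = K at *
  generalize Lx σ D (!j) v = m at *
  have hm : 1 ≤ m := by
    by_contra hh
    have : m = 0 := by omega
    subst this
    rw [zz_zero] at b1; exact b1 hv
  obtain ⟨m, rfl⟩ : ∃ l, m = l + 1 := ⟨m - 1, by omega⟩
  obtain ⟨K, rfl⟩ : ∃ l, K = l + 1 := ⟨K - 1, by omega⟩
  rw [Nat.add_sub_cancel, Nat.add_sub_cancel] at he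
  set a := zz σ (!j) m v with ha
  set i := !(lt (!j) m) with hidef
  have hia : i = lt j m := by rw [hidef, lt_nn, Bool.not_not]
  have hrev : ∀ l ≤ m, zz σ i l a = zz σ (!j) (m - l) v :=
    fun l hl => zz_revD hi (fun l hl => b2 l (by omega)) l hl
  have hva : zz σ i m a = v := by rw [hrev m le_rfl, Nat.sub_self, zz_zero]
  have hfw : ∀ l, zz σ i (m + l) a = zz σ j l v := by
    intro l
    rw [zz_add, hva, hia, lt_lt]
  have hst : ∀ l ≤ m + K, zz σ i l a ∈ D := by
    intro l hl
    by_cases h : l ≤ m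
    · rw [hrev l h]; exact b2 _ (by omega)
    · obtain ⟨l, rfl⟩ : ∃ l', l = m + l' := ⟨l - m, by omega⟩
      rw [hfw]; exact a2 l (by omega)
  have hret : zz σ i (m + K) a = a := by rw [hfw]; exact he
  have heven := fold hi hn hst hret
  have hout : zz σ i (m + (K + 1)) a ∉ D := by rw [hfw]; exact a1
  rw [← Nat.add_assoc, zz_succ', hret] at hout
  have h3 : lt i (m + K) = i := by unfold lt; rw [if_pos heven]
  rw [h3] at hout
  have h4 := hst 1 (by omega)
  rw [zz_succ, zz_zero] at h4
  exact hout h4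

end

section cyc

variable {X : Type} {σ : Bool → X → X} {A : Set X}

/-- The points at even distance. -/
def Ev (σ : Bool → X → X) (v : X) : Set X := {w | ∃ j m, w = zz σ j (2 * m) v}

/-- The points at odd distance. -/
def Od (σ : Bool → X → X) (v : X) : Set X := {w | ∃ j m, w = zz σ j (2 * m + 1) v}

theorem bool_ne {i j : Bool} (h : i ≠ j) : i = !j := by cases i <;> cases j <;> simp_all

theorem Ev_sub {v : X} {j : Bool} (hi : σ j (σ j v) = v) : Ev σ (σ j v) ⊆ Od σ v := by
  rintro w ⟨i, m, rfl⟩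
  by_cases h : i = j
  · subst h
    cases m with
    | zero => exact ⟨i, 0, by rw [zz_zero, zz_succ, zz_zero]⟩
    | succ m =>
      refine ⟨!i, m, ?_⟩
      have e1 : 2 * (m + 1) = (2 * m + 1) + 1 := by ring
      rw [e1, zz_succ, hi]
  · rw [bool_ne h]
    exact ⟨j, m, by rw [← zz_succ]⟩

theorem Od_sub {v : X} {j : Bool} (hi : σ j (σ j v) = v) : Od σ (σ j v) ⊆ Ev σ v := by
  rintro w ⟨i, m, rfl⟩
  by_cases h : i = j
  · subst h
    refine ⟨!i, m, ?_⟩
    rw [zz_succ, hi]
  · rw [bool_ne h]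
    exact ⟨j, m + 1, by rw [← zz_succ]; rfl⟩

theorem Ev_σ {v : X} {j : Bool} (hi : σ j (σ j v) = v) : Ev σ (σ j v) = Od σ v := by
  refine (Ev_sub hi).antisymm ?_
  have := Od_sub (σ := σ) (v := σ j v) (j := j) (by rw [hi])
  rwa [hi] at this

theorem Od_σ {v : X} {j : Bool} (hi : σ j (σ j v) = v) : Od σ (σ j v) = Ev σ v := by
  refine (Od_sub hi).antisymm ?_
  have := Ev_sub (σ := σ) (v := σ j v) (j := j) (by rw [hi])
  rwa [hi] at this

theorem EvOd_disj (hA : ∀ v ∈ A, ∀ j, σ j v ∈ A) (hi : ∀ v ∈ A, ∀ j, σ j (σ j v) = v)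
    (hn : ∀ v ∈ A, ∀ j, σ j v ≠ v) {v w : X} (hv : v ∈ A) (h1 : w ∈ Ev σ v)
    (h2 : w ∈ Od σ v) : False := by
  obtain ⟨j, m, rfl⟩ := h1
  have key : ∀ k, Od σ (zz σ j k v) = (if k % 2 = 0 then Od σ v else Ev σ v) ∧
      Ev σ (zz σ j k v) = (if k % 2 = 0 then Ev σ v else Od σ v) := by
    intro k
    induction k with
    | zero => rw [zz_zero]; simp
    | succ k ih =>
      have h3 := hi _ (zz_mem hA hv j k) (lt j k)
      rw [zz_succ', Od_σ h3, Ev_σ h3, ih.1, ih.2]
      rcases Nat.mod_two_eq_zero_or_one k with h | h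
      · rw [if_pos h, if_neg (by omega), if_pos h, if_neg (by omega)]; exact ⟨rfl, rfl⟩
      · rw [if_neg (by omega), if_pos (by omega), if_neg (by omega), if_pos (by omega)]
        exact ⟨rfl, rfl⟩
  have h3 := (key (2 * m)).1
  rw [if_pos (by omega)] at h3
  rw [← h3] at h2
  obtain ⟨i, l, h4⟩ := h2
  have := ret_even hA hi hn (zz_mem hA hv j (2 * m)) h4.symm
  omega

/-- The orbit is finite if it returns. -/
theorem Lp_finite (hA : ∀ v ∈ A, ∀ j, σ j v ∈ A) (hi : ∀ v ∈ A, ∀ j, σ j (σ j v) = v)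
    (hn : ∀ v ∈ A, ∀ j, σ j v ≠ v) {v : X} (hv : v ∈ A) {j : Bool} {k : ℕ} (hk : 1 ≤ k)
    (h : zz σ j k v = v) : (Lp σ v).Finite := by
  have heven := ret_even hA hi hn hv h
  have hsub : Lp σ v ⊆ (fun l => zz σ j l v) '' Set.Iio k := by
    have hcl : ∀ w ∈ (fun l => zz σ j l v) '' Set.Iio k, ∀ i,
        σ i w ∈ (fun l => zz σ j l v) '' Set.Iio k := by
      rintro _ ⟨l, hl, rfl⟩ i
      simp only [Set.mem_Iio] at hl
      simp only
      by_cases hil : i = lt j l
      · subst hil
        have e0 : σ (lt j l) (zz σ j l v) = zz σ j (l + 1) v := (zz_succ' j l v).symm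
        rw [e0]
        by_cases hlk : l + 1 = k
        · rw [hlk, h]
          exact ⟨0, by simp only [Set.mem_Iio]; omega, zz_zero _ _⟩
        · exact ⟨l + 1, by simp only [Set.mem_Iio]; omega, rfl⟩
      · have hil' : i = !(lt j l) := bool_ne hil
        cases l with
        | zero =>
          rw [zz_zero]
          have h1 := zz_back hA hi hv j (k - 1)
          have e1 : k - 1 + 1 = k := by omega
          rw [e1, h] at h1
          have h2 : lt j (k - 1) = i := by
            rw [hil']; unfold lt; rw [if_neg (by omega)]; simp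
          rw [h2] at h1
          exact ⟨k - 1, by simp only [Set.mem_Iio]; omega, h1.symm⟩
        | succ l =>
          have h1 := zz_back hA hi hv j l
          have h2 : lt j l = i := by
            rw [hil', ← lt_not]; unfold lt; split_ifs <;> simp
          rw [h2] at h1
          exact ⟨l, by simp only [Set.mem_Iio]; omega, h1.symm⟩
    rintro w ⟨i, l, rfl⟩
    induction l with
    | zero => rw [zz_zero]; exact ⟨0, by simp only [Set.mem_Iio]; omega, zz_zero _ _⟩
    | succ l ih => rw [zz_succ']; exact hcl _ ih _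
  exact ((Set.finite_Iio k).image _).subset hsub

end cyc

section final

variable {X : Type} [MeasurableSpace X] [StandardBorelSpace X] {σ : Bool → X → X} {D : Set X}

/-- A minimal point of the orbit is at even distance. -/
def Pe (σ : Bool → X → X) (v : X) : Prop :=
  ∃ i m, ∀ j l, embeddingReal X (zz σ i (2 * m) v) ≤ embeddingReal X (zz σ j l v)

theorem Ev_or_Od {v w : X} (h : w ∈ Lp σ v) : w ∈ Ev σ v ∨ w ∈ Od σ v := by
  obtain ⟨j, k, rfl⟩ := h
  rcases Nat.mod_two_eq_zero_or_one k with h | h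
  · left; exact ⟨j, k / 2, by congr 1; omega⟩
  · right; exact ⟨j, k / 2, by congr 1; omega⟩

theorem Ev_sub_Lp {v : X} : Ev σ v ⊆ Lp σ v := by
  rintro w ⟨j, m, rfl⟩; exact ⟨j, _, rfl⟩

theorem Od_sub_Lp {v : X} : Od σ v ⊆ Lp σ v := by
  rintro w ⟨j, m, rfl⟩; exact ⟨j, _, rfl⟩

theorem Pe_iff {v : X} : Pe σ v ↔
    ∃ w ∈ Ev σ v, ∀ u ∈ Lp σ v, embeddingReal X w ≤ embeddingReal X u := by
  constructor
  · rintro ⟨i, m, h⟩
    refine ⟨_, ⟨i, m, rfl⟩, ?_⟩
    rintro _ ⟨j, l, rfl⟩
    exact h j l
  · rintro ⟨_, ⟨i, m, rfl⟩, h⟩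
    exact ⟨i, m, fun j l => h _ ⟨j, l, rfl⟩⟩

theorem Lp_σ_eq {v : X} {j : Bool} (hi : σ j (σ j v) = v) : Lp σ (σ j v) = Lp σ v := by
  have h : ∀ v, Lp σ v = Ev σ v ∪ Od σ v := by
    intro v
    ext w
    exact ⟨fun h => Ev_or_Od h, fun h => h.elim (fun h => Ev_sub_Lp h) fun h => Od_sub_Lp h⟩
  rw [h, h, Ev_σ hi, Od_σ hi, Set.union_comm]

theorem Pe_σ {A : Set X} (hA : ∀ v ∈ A, ∀ j, σ j v ∈ A)
    (hi : ∀ v ∈ A, ∀ j, σ j (σ j v) = v) (hn : ∀ v ∈ A, ∀ j, σ j v ≠ v) {v : X} (hv : v ∈ A)
    (hr : ∃ j k, 1 ≤ k ∧ zz σ j k v = v) (j : Bool) : Pe σ (σ j v) ↔ ¬ Pe σ v := by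
  obtain ⟨j0, k, hk, h⟩ := hr
  have hfin := Lp_finite hA hi hn hv hk h
  obtain ⟨z, hz, hmin⟩ := Set.exists_min_image (Lp σ v) (embeddingReal X) hfin ⟨v, self_Lp v⟩
  have huniq : ∀ w ∈ Lp σ v, (∀ u ∈ Lp σ v, embeddingReal X w ≤ embeddingReal X u) → w = z := by
    intro w hw h
    exact (measurableEmbedding_embeddingReal X).injective (le_antisymm (h z hz) (hmin w hw))
  have h1 : Pe σ v ↔ z ∈ Ev σ v := by
    rw [Pe_iff]
    constructor
    · rintro ⟨w, hw, h⟩
      rwa [← huniq w (Ev_sub_Lp hw) h]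
    · intro h; exact ⟨z, h, hmin⟩
  have h2 : Pe σ (σ j v) ↔ z ∈ Od σ v := by
    rw [Pe_iff, Ev_σ (hi v hv j), Lp_σ_eq (hi v hv j)]
    constructor
    · rintro ⟨w, hw, h⟩
      rwa [← huniq w (Od_sub_Lp hw) h]
    · intro h; exact ⟨z, h, hmin⟩
  rw [h1, h2]
  constructor
  · intro h3 h4; exact EvOd_disj hA hi hn hv h4 h3
  · intro h3
    exact (Ev_or_Od hz).resolve_left h3

open Classical in
/-- The chosen direction. -/
noncomputable def dir (σ : Bool → X → X) (D : Set X) (v : X) : Bool :=
  if Ex σ D false v then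
    (if Ex σ D true v then
      (if embeddingReal X (en σ D false v) ≤ embeddingReal X (en σ D true v) then false else true)
      else false)
  else (if Ex σ D true v then true else (if Pe σ v then true else false))

theorem measurable_zzσ (hσ : ∀ j, Measurable (σ j)) (j : Bool) (k : ℕ) :
    Measurable (zz σ j k) := by
  induction k with
  | zero =>
    have : zz σ j 0 = fun v => v := by funext v; exact zz_zero j v
    rw [this]; exact measurable_id
  | succ k ih =>
    have : zz σ j (k + 1) = fun v => σ (lt j k) (zz σ j k v) := by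
      funext v; exact zz_succ' j k v
    rw [this]
    exact (hσ _).comp ih

theorem measurableSet_Ex (hσ : ∀ j, Measurable (σ j)) (hD : MeasurableSet D) (j : Bool) :
    MeasurableSet {v | Ex σ D j v} := by
  have : {v | Ex σ D j v} = ⋃ k, (zz σ j k ⁻¹' D)ᶜ := by
    ext v; simp [Ex]
  rw [this]
  exact MeasurableSet.iUnion fun k => (measurable_zzσ hσ j k hD).compl

theorem measurable_Lx (hσ : ∀ j, Measurable (σ j)) (hD : MeasurableSet D) (j : Bool) :
    Measurable (Lx σ D j) := by
  classical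
  refine measurable_natFind (P := fun k => (zz σ j k ⁻¹' D)ᶜ)
    (fun k => (measurable_zzσ hσ j k hD).compl) _ ?_
  intro v m
  by_cases h : Ex σ D j v
  · rw [Lx_spec h]
    constructor
    · rintro ⟨h1, h2⟩
      exact Or.inl ⟨h1, fun l hl => not_not.2 (h2 l hl)⟩
    · rintro (⟨h1, h2⟩ | ⟨-, h2⟩)
      · exact ⟨h1, fun l hl => not_not.1 (h2 l hl)⟩
      · obtain ⟨l, hl⟩ := h; exact absurd hl (h2 l)
  · have h0 : Lx σ D j v = 0 := by unfold Lx; rw [dif_neg h]
    rw [h0]
    constructor
    · rintro rfl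
      exact Or.inr ⟨rfl, fun l hl => h ⟨l, hl⟩⟩
    · rintro (⟨h1, h2⟩ | ⟨h1, -⟩)
      · exact absurd ⟨m, h1⟩ h
      · exact h1.symm

theorem measurable_en (hσ : ∀ j, Measurable (σ j)) (hD : MeasurableSet D) (j : Bool) :
    Measurable (en σ D j) := by
  have h2 : Measurable (fun p : ℕ × X => zz σ j (p.1 - 1) p.2) :=
    measurable_from_prod_countable_right fun n => measurable_zzσ hσ j (n - 1)
  exact h2.comp ((measurable_Lx hσ hD j).prodMk measurable_id)

theorem measurableSet_Pe (hσ : ∀ j, Measurable (σ j)) : MeasurableSet {v : X | Pe σ v} := by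
  have : {v : X | Pe σ v} = ⋃ i, ⋃ m, ⋂ j, ⋂ l,
      {v | embeddingReal X (zz σ i (2 * m) v) ≤ embeddingReal X (zz σ j l v)} := by
    ext v; simp [Pe]
  rw [this]
  refine MeasurableSet.iUnion fun i => MeasurableSet.iUnion fun m => MeasurableSet.iInter fun j =>
    MeasurableSet.iInter fun l => measurableSet_le ?_ ?_
  · exact (measurableEmbedding_embeddingReal X).measurable.comp (measurable_zzσ hσ _ _)
  · exact (measurableEmbedding_embeddingReal X).measurable.comp (measurable_zzσ hσ _ _)

theorem measurable_dir (hσ : ∀ j, Measurable (σ j)) (hD : MeasurableSet D) :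
    Measurable (dir σ D) := by
  classical
  unfold dir
  refine Measurable.ite (measurableSet_Ex hσ hD false) ?_ ?_
  · refine Measurable.ite (measurableSet_Ex hσ hD true) ?_ measurable_const
    refine Measurable.ite (measurableSet_le ?_ ?_) measurable_const measurable_const
    · exact (measurableEmbedding_embeddingReal X).measurable.comp (measurable_en hσ hD _)
    · exact (measurableEmbedding_embeddingReal X).measurable.comp (measurable_en hσ hD _)
  · refine Measurable.ite (measurableSet_Ex hσ hD true) measurable_const ?_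
    exact Measurable.ite (measurableSet_Pe hσ) measurable_const measurable_const

theorem ori : S_ORI := by
  classical
  intro X _ _ σ D hσ hD hi hn hex
  refine ⟨dir σ D, measurable_dir hσ hD, ?_, ?_⟩
  · intro v hv j hv'
    have sw := fun i => swap1 hi (j := j) hv hv' i
    have s1 := sw false
    have s2 := sw true
    simp only [Bool.not_false, Bool.not_true] at s1 s2
    by_cases h1 : Ex σ D false v
    · by_cases h2 : Ex σ D true v
      · have e1 : dir σ D v = if embeddingReal X (en σ D false v) ≤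
            embeddingReal X (en σ D true v) then false else true := by
          unfold dir; rw [if_pos h1, if_pos h2]
        have e2 : dir σ D (σ j v) = if embeddingReal X (en σ D true v) ≤
            embeddingReal X (en σ D false v) then false else true := by
          unfold dir; rw [if_pos (s1.1.2 h2), if_pos (s2.1.2 h1), s1.2 h2, s2.2 h1]
        have hne : embeddingReal X (en σ D false v) ≠ embeddingReal X (en σ D true v) := by
          intro h
          have h' := (measurableEmbedding_embeddingReal X).injective h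
          cases j
          · exact ends_ne hi hn hv hv' h1 h2 h'
          · exact ends_ne hi hn hv hv' h2 h1 h'.symm
        rw [e1, e2]
        rcases lt_or_gt_of_ne hne with h | h
        · rw [if_neg (not_le.2 h), if_pos h.le]; decide
        · rw [if_pos h.le, if_neg (not_le.2 h)]; decide
      · have e1 : dir σ D v = false := by unfold dir; rw [if_pos h1, if_neg h2]
        have e2 : dir σ D (σ j v) = true := by
          unfold dir; rw [if_neg (fun h => h2 (s1.1.1 h)), if_pos (s2.1.2 h1)]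
        rw [e1, e2]; decide
    · by_cases h2 : Ex σ D true v
      · have e1 : dir σ D v = true := by unfold dir; rw [if_neg h1, if_pos h2]
        have e2 : dir σ D (σ j v) = false := by
          unfold dir; rw [if_pos (s1.1.2 h2), if_neg (fun h => h1 (s2.1.1 h))]
        rw [e1, e2]; decide
      · have e1 : dir σ D v = if Pe σ v then true else false := by
          unfold dir; rw [if_neg h1, if_neg h2]
        have e2 : dir σ D (σ j v) = if Pe σ (σ j v) then true else false := by
          unfold dir; rw [if_neg (fun h => h2 (s1.1.1 h)), if_neg (fun h => h1 (s2.1.1 h))]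
        have hall : ∀ j k, zz σ j k v ∈ D := by
          intro j k
          by_contra hh
          cases j
          · exact h1 ⟨k, hh⟩
          · exact h2 ⟨k, hh⟩
        have hr : ∃ j k, 1 ≤ k ∧ zz σ j k v = v := by
          rcases hex v hv with ⟨j, k, h⟩ | h
          · exact absurd (hall j k) h
          · exact h
        set A : Set X := {u | ∀ j k, zz σ j k u ∈ D} with hA
        have hAD : ∀ u ∈ A, u ∈ D := fun u hu => by
          have := hu false 0
          rwa [zz_zero] at this
        have hAσ : ∀ u ∈ A, ∀ j, σ j u ∈ A := by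
          intro u hu j i k
          by_cases h : i = j
          · subst h
            cases k with
            | zero => rw [zz_zero]; have := hu i 1; rwa [zz_succ, zz_zero] at this
            | succ k => rw [zz_succ, hi u (hAD u hu)]; exact hu _ k
          · rw [bool_ne h, ← zz_succ]; exact hu j (k + 1)
        have := Pe_σ hAσ (fun u hu => hi u (hAD u hu)) (fun u hu => hn u (hAD u hu))
          (show v ∈ A from hall) hr j
        rw [e1, e2]
        by_cases hP : Pe σ v
        · rw [if_pos hP, if_neg (fun h => (this.1 h) hP)]; decide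
        · rw [if_neg hP, if_pos (this.2 hP)]; decide
  · intro v hv h
    have hor : Ex σ D false v ∨ Ex σ D true v := by
      obtain ⟨j, k, h⟩ := h
      cases j
      · exact Or.inl ⟨k, h⟩
      · exact Or.inr ⟨k, h⟩
    change Ex σ D (dir σ D v) v
    unfold dir
    by_cases h1 : Ex σ D false v
    · rw [if_pos h1]
      by_cases h2 : Ex σ D true v
      · rw [if_pos h2]
        split_ifs
        · exact h1
        · exact h2
      · rw [if_neg h2]; exact h1
    · have h2 := hor.resolve_left h1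
      rw [if_neg h1, if_pos h2]; exact h2

end final

end Pool.Agent.W927.MT
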