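import Pool.Agent.W927.MT.Zz

/-!
Borel maximal separated subsets on lines.
-/

namespace Pool.Agent.W927.MT

open MeasureTheory

section

variable {X : Type} {σ : Bool → X → X} {L : Set X}

theorem not_lt (j : Bool) (k : ℕ) : (!(lt j k)) = lt j (k + 1) := by
  rw [← lt_not]
  unfold lt; split_ifs <;> rfl

/-- The reversed walk. -/
theorem zz_rev (hA : ∀ v ∈ L, ∀ j, σ j v ∈ L) (hi : ∀ v ∈ L, ∀ j, σ j (σ j v) = v)
    {v : X} (hv : v ∈ L) (j : Bool) (k : ℕ) : zz σ (!(lt j k)) k (zz σ j k v) = v := by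
  induction k with
  | zero => rw [zz_zero, zz_zero]
  | succ k ih =>
    rw [← not_lt, Bool.not_not, zz_succ, zz_back hA hi hv, ih]

theorem exists_sepfam (X : Type) [MeasurableSpace X] [StandardBorelSpace X] :
    ∃ B : ℕ → Set X, (∀ n, MeasurableSet (B n)) ∧
      ∀ (v : X) (F : Set X), F.Finite → v ∉ F → ∃ n, v ∈ B n ∧ ∀ w ∈ F, w ∉ B n := by
  obtain ⟨q, hq⟩ := exists_surjective_nat (ℚ × ℚ)
  refine ⟨fun n => (embeddingReal X) ⁻¹' Set.Ioo ((q n).1 : ℝ) ((q n).2 : ℝ), fun n =>
    (measurableEmbedding_embeddingReal X).measurable measurableSet_Ioo, ?_⟩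
  intro v F hF hv
  have h1 : IsOpen ((embeddingReal X '' F)ᶜ) := (hF.image _).isClosed.isOpen_compl
  have h2 : embeddingReal X v ∈ (embeddingReal X '' F)ᶜ := by
    rintro ⟨w, hw, h⟩
    exact hv ((measurableEmbedding_embeddingReal X).injective h ▸ hw)
  obtain ⟨s, hs, hvs, hsub⟩ := Real.isTopologicalBasis_Ioo_rat.exists_subset_of_mem_open h2 h1
  simp only [Set.mem_iUnion, Set.mem_singleton_iff] at hs
  obtain ⟨a, b, -, rfl⟩ := hs
  obtain ⟨n, hn⟩ := hq (a, b)
  refine ⟨n, ?_, fun w hw hw' => ?_⟩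
  · rw [Set.mem_preimage, hn]; exact hvs
  · rw [Set.mem_preimage, hn] at hw'
    exact hsub hw' ⟨w, hw, rfl⟩

/-- The greedy sets. -/
def Wn (σ : Bool → X → X) (r : X → ℕ) (An : ℕ → Set X) : ℕ → Set X
  | 0 => ∅
  | n + 1 => Wn σ r An n ∪ {v | v ∈ An n ∧ ∀ j k, k ≤ r v → zz σ j k v ∉ Wn σ r An n}

theorem sep : S_SEP := by
  intro X _ _ σ L A r hσ hL hA hAL hr hLσ hi hrσ hfree
  obtain ⟨B, hBm, hB⟩ := exists_sepfam X
  have hzm : ∀ j k, Measurable (zz σ j k) := by
    intro j k
    induction k with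
    | zero =>
      have : zz σ j 0 = fun v => v := by funext v; exact zz_zero j v
      rw [this]; exact measurable_id
    | succ k ih =>
      have : zz σ j (k + 1) = fun v => σ (lt j k) (zz σ j k v) := by
        funext v; exact zz_succ' j k v
      rw [this]
      exact (hσ _).comp ih
  have hrz : ∀ v ∈ L, ∀ j k, r (zz σ j k v) = r v := by
    intro v hv j k
    induction k with
    | zero => rw [zz_zero]
    | succ k ih => rw [zz_succ', hrσ _ (zz_mem hLσ hv j k), ih]
  set An : ℕ → Set X := fun n =>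
    {v | v ∈ A ∧ v ∈ B n ∧ ∀ j k, 1 ≤ k → k ≤ r v → zz σ j k v ∉ B n} with hAn
  have hAnm : ∀ n, MeasurableSet (An n) := by
    intro n
    have : An n = A ∩ (B n ∩ ⋂ j, ⋂ k, ({v | 1 ≤ k ∧ k ≤ r v}ᶜ ∪ (zz σ j k ⁻¹' B n)ᶜ)) := by
      ext v
      simp only [hAn, Set.mem_ofPred_eq, Set.mem_inter_iff, Set.mem_iInter, Set.mem_union,
        Set.mem_compl_iff, Set.mem_preimage]
      refine and_congr_right fun _ => and_congr_right fun _ => ?_
      refine forall_congr' fun j => forall_congr' fun k => ?_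
      tauto
    rw [this]
    refine hA.inter ((hBm n).inter (MeasurableSet.iInter fun j => MeasurableSet.iInter fun k => ?_))
    refine MeasurableSet.union (MeasurableSet.compl ?_) (hzm j k (hBm n)).compl
    exact (MeasurableSet.const _).inter (hr (measurableSet_Ici : MeasurableSet (Set.Ici k)))
  have hWm : ∀ n, MeasurableSet (Wn σ r An n) := by
    intro n
    induction n with
    | zero => exact MeasurableSet.empty
    | succ n ih =>
      have : Wn σ r An (n + 1) = Wn σ r An n ∪
          (An n ∩ ⋂ j, ⋂ k, ({v | k ≤ r v}ᶜ ∪ (zz σ j k ⁻¹' Wn σ r An n)ᶜ)) := by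
        ext v
        simp only [Wn, Set.mem_ofPred_eq, Set.mem_inter_iff, Set.mem_iInter, Set.mem_union,
          Set.mem_compl_iff, Set.mem_preimage]
        refine or_congr_right (and_congr_right fun _ => ?_)
        refine forall_congr' fun j => forall_congr' fun k => ?_
        tauto
      rw [this]
      refine ih.union ((hAnm n).inter
        (MeasurableSet.iInter fun j => MeasurableSet.iInter fun k => ?_))
      exact MeasurableSet.union (hr (measurableSet_Ici : MeasurableSet (Set.Ici k))).compl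
        (hzm j k ih).compl
  have hmono : ∀ n m, n ≤ m → Wn σ r An n ⊆ Wn σ r An m := by
    intro n m h
    induction m, h using Nat.le_induction with
    | base => exact subset_rfl
    | succ m _ ih => exact ih.trans Set.subset_union_left
  have hWA : ∀ n, Wn σ r An n ⊆ A := by
    intro n
    induction n with
    | zero => exact Set.empty_subset _
    | succ n ih =>
      rintro v (h | h)
      · exact ih h
      · exact h.1.1
  -- the step at which a point enters
  have henter : ∀ n, ∀ v ∈ Wn σ r An n, ∃ m < n, v ∈ An m ∧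
      (∀ j k, k ≤ r v → zz σ j k v ∉ Wn σ r An m) ∧ v ∈ Wn σ r An (m + 1) := by
    intro n
    induction n with
    | zero => intro v hv; exact absurd hv (Set.notMem_empty v)
    | succ n ih =>
      rintro v (h | h)
      · obtain ⟨m, hm, h'⟩ := ih v h
        exact ⟨m, by omega, h'⟩
      · exact ⟨n, by omega, h.1, h.2, Or.inr h⟩
  refine ⟨⋃ n, Wn σ r An n, Set.iUnion_subset hWA, MeasurableSet.iUnion hWm, ?_, ?_⟩
  · intro v hv j k hk hkr hu
    rw [Set.mem_iUnion] at hv hu
    obtain ⟨n, hv⟩ := hv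
    obtain ⟨n', hu⟩ := hu
    have hvL : v ∈ L := hAL (hWA n hv)
    obtain ⟨m, -, hm1, hm2, hm3⟩ := henter n v hv
    obtain ⟨m', -, hm1', hm2', hm3'⟩ := henter n' _ hu
    rcases lt_trichotomy m m' with h | h | h
    · refine hm2' (!(lt j k)) k (by rw [hrz v hvL]; exact hkr) ?_
      rw [zz_rev hLσ hi hvL]
      exact hmono (m + 1) m' h hm3
    · subst h
      exact hm1.2.2 j k hk hkr hm1'.2.1
    · exact hm2 j k hkr (hmono (m' + 1) m h hm3')
  · intro v hv
    have hvL := hAL hv
    set F : Set X := (fun p : Bool × ℕ => zz σ p.1 (p.2 + 1) v) ''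
      (Set.univ ×ˢ Set.Iio (r v)) with hF
    have hFf : F.Finite := (Set.finite_univ.prod (Set.finite_Iio _)).image _
    obtain ⟨n, hn1, hn2⟩ := hB v F hFf (by
      rintro ⟨⟨j, k⟩, -, h⟩
      exact hfree v hvL j k h)
    have hvn : v ∈ An n := by
      refine ⟨hv, hn1, fun j k h1 h2 => hn2 _ ⟨(j, k - 1), ⟨trivial, ?_⟩, ?_⟩⟩
      · simp only [Set.mem_Iio]; omega
      · simp only
        congr 1
        omega
    by_cases h : ∀ j k, k ≤ r v → zz σ j k v ∉ Wn σ r An n
    · refine ⟨false, 0, Nat.zero_le _, ?_⟩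
      rw [zz_zero, Set.mem_iUnion]
      exact ⟨n + 1, Or.inr ⟨hvn, h⟩⟩
    · push Not at h
      obtain ⟨j, k, h1, h2⟩ := h
      exact ⟨j, k, h1, Set.mem_iUnion.2 ⟨n, h2⟩⟩

end

end Pool.Agent.W927.MT
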