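import Mathlib

/-!
Locally checkable labelling problems on graphs of bounded degree, measured graphs and the mass
transport principle; the labelling problem of the project MT.
-/

namespace Pool.Agent.W927.MT

open MeasureTheory
open scoped ENNReal

/-! ### Rooted labelled graphs and labelling problems -/

/-- A rooted graph with vertices labelled by `Fin k`. -/
structure RG (k : ℕ) where
  /-- the vertices -/
  W : Type
  /-- the graph -/
  G : SimpleGraph W
  /-- the root -/
  root : W
  /-- the labels -/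
  lab : W → Fin k

/-- Isomorphism of rooted labelled graphs. -/
def RG.Iso {k : ℕ} (A B : RG k) : Prop :=
  ∃ e : A.G ≃g B.G, e A.root = B.root ∧ ∀ w, B.lab (e w) = A.lab w

/-- Isomorphism is an equivalence relation. -/
def RG.setoid (k : ℕ) : Setoid (RG k) where
  r := RG.Iso
  iseqv := by
    refine ⟨fun A => ⟨.refl, rfl, fun _ => rfl⟩, ?_, ?_⟩
    · rintro A B ⟨e, h1, h2⟩
      refine ⟨e.symm, ?_, fun w => ?_⟩
      · rw [← h1]; simp
      · rw [← h2]; simp
    · rintro A B C ⟨e, h1, h2⟩ ⟨f, h3, h4⟩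
      refine ⟨e.trans f, ?_, fun w => ?_⟩
      · simp [h1, h3]
      · simp [h2, h4]

/-- Isomorphism types of rooted labelled graphs. -/
abbrev RGType (k : ℕ) := Quotient (RG.setoid k)

/-- The ball of radius `r` around `v`: the endpoints of walks of length at most `r` from `v`. -/
def ball {V : Type} (G : SimpleGraph V) (r : ℕ) (v : V) : Set V :=
  {u | ∃ p : G.Walk v u, p.length ≤ r}

theorem mem_ball_self {V : Type} (G : SimpleGraph V) (r : ℕ) (v : V) : v ∈ ball G r v :=
  ⟨.nil, Nat.zero_le _⟩

/-- The ball of radius `r` around `v` as an induced subgraph, rooted at `v` and labelled by `f`. -/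
def ballRG {V : Type} (G : SimpleGraph V) (r : ℕ) {k : ℕ} (f : V → Fin k) (v : V) : RG k where
  W := ball G r v
  G := G.induce (ball G r v)
  root := ⟨v, mem_ball_self G r v⟩
  lab := fun w => f w

/-- A locally checkable labelling problem for graphs of maximum degree at most `Δ`: the labels
`Fin k`, the radius `r` and a set of isomorphism types of rooted labelled graphs of radius at most
`r` and degree at most `Δ`. -/
structure LCL (Δ : ℕ) where
  /-- the number of labels -/
  k : ℕ
  /-- the radius -/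
  r : ℕ
  /-- the allowed isomorphism types -/
  P : Set (RGType k)
  /-- they are types of rooted graphs of radius at most `r` and degree at most `Δ` -/
  small : ∀ B : RG k, Quotient.mk (RG.setoid k) B ∈ P →
    (∀ w, w ∈ ball B.G r B.root) ∧ ∀ w, (B.G.neighborSet w).encard ≤ Δ

/-- A measured graph of maximum degree at most `Δ`: a Borel graph on a standard Borel space with a
Borel probability measure that is quasi-invariant for the connectedness relation. -/
structure MeasuredGraph (Δ : ℕ) where
  /-- the vertices -/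
  X : Type
  /-- the Borel sets -/
  [mX : MeasurableSpace X]
  /-- they form a standard Borel space -/
  [sX : StandardBorelSpace X]
  /-- the measure -/
  μ : Measure X
  /-- it is a probability measure -/
  [pμ : IsProbabilityMeasure μ]
  /-- the graph -/
  G : SimpleGraph X
  /-- it is a Borel graph -/
  borel : MeasurableSet {p : X × X | G.Adj p.1 p.2}
  /-- all degrees are at most `Δ` -/
  deg : ∀ x, (G.neighborSet x).encard ≤ Δ
  /-- the saturation of a null set is null -/
  qi : ∀ A : Set X, μ A = 0 → μ {x | ∃ y ∈ A, G.Reachable y x} = 0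

attribute [instance] MeasuredGraph.mX MeasuredGraph.sX MeasuredGraph.pμ

/-- The mass transport identity for a relation `R` and a measure `μ`. -/
def MTPR {X : Type} [MeasurableSpace X] (μ : Measure X) (R : X → X → Prop) : Prop :=
  ∀ f : X × X → ℝ≥0∞, Measurable f →
    ∫⁻ x, ∑' y : {y // R x y}, f (x, y) ∂μ = ∫⁻ x, ∑' y : {y // R x y}, f (y, x) ∂μ

/-- The mass transport principle for a measured graph. -/
def MeasuredGraph.MTP {Δ : ℕ} (M : MeasuredGraph Δ) : Prop :=
  MTPR M.μ M.G.Reachable

/-- The problem `L` is solvable on the measured graph `M`: there is a Borel labelling that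
satisfies `L` at almost every vertex. -/
def LCL.SolvableOn {Δ : ℕ} (L : LCL Δ) (M : MeasuredGraph Δ) : Prop :=
  ∃ f : M.X → Fin L.k, Measurable f ∧
    ∀ᵐ x ∂M.μ, Quotient.mk (RG.setoid L.k) (ballRG M.G L.r f x) ∈ L.P

/-! ### The structure encoded in a graph -/

section Enc

variable {V : Type}

/-- The degree of a vertex (zero if infinite). -/
noncomputable def dg (G : SimpleGraph V) (x : V) : ℕ := (G.neighborSet x).ncard

/-- `x` and `y` have degree 5 and there is a path `x, u, w, y` with `u` of degree `a` and `w` of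
degree `b`. -/
def E (G : SimpleGraph V) (a b : ℕ) (x y : V) : Prop :=
  dg G x = 5 ∧ dg G y = 5 ∧
    ∃ u w, G.Adj x u ∧ G.Adj u w ∧ G.Adj w y ∧ dg G u = a ∧ dg G w = b

/-- The degree that marks a line edge of type `j`. -/
def dS (j : Bool) : ℕ := if j then 3 else 2

/-- The degree that marks the edge to a child of type `i`. -/
def dC (i : Bool) : ℕ := if i then 6 else 4

/-- `w` is a line neighbour of type `j` of `v`. -/
def Sr (G : SimpleGraph V) (j : Bool) (v w : V) : Prop := E G (dS j) (dS j) v w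

/-- `w` is a child of type `i` of `v`. -/
def Cr (G : SimpleGraph V) (i : Bool) (v w : V) : Prop := E G (dC i) 7 v w

/-- `v` has exactly one line neighbour of each type, one child of each type and one parent. -/
def Ok (G : SimpleGraph V) (v : V) : Prop :=
  (∀ j, ∃! w, Sr G j v w) ∧ (∀ i, ∃! w, Cr G i v w) ∧ ∃! q : Bool × V, Cr G q.1 q.2 v

/-- `v` and its line neighbours and children are in order and the operations commute at `v`. -/
def Good (G : SimpleGraph V) (v : V) : Prop :=
  Ok G v ∧ (∀ j w, Sr G j v w → w ≠ v ∧ Ok G w) ∧ (∀ i w, Cr G i v w → Ok G w) ∧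
    ∀ i j x y z, Cr G i v x → Sr G j v y → Cr G i y z → Sr G j x z

/-- The rule of the labelling problem at `v`. The labels are a type `t` of a child, a type `c` of
a line neighbour and a state `τ` (0: off, 1: wall, 2: one, 3: two). -/
def Rule (G : SimpleGraph V) (t c : V → Bool) (τ : V → Fin 4) (v : V) : Prop :=
  Good G v →
    (∀ j w, Sr G j v w → t w = t v ∧ (τ w = 0 ↔ τ v = 0) ∧
      (Good G w → ¬ (τ v = 1 ∧ τ w = 1) ∧ (τ v ≠ 1 → τ w ≠ 1 → c w ≠ c v))) ∧
    (∀ n q, Sr G (c v) v n → Sr G (!c v) v q →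
      (τ v = 2 → (τ q = 1 ∨ τ q = 2) ∧ (τ n = 2 ∨ τ n = 3)) ∧
      (τ v = 3 → (τ q = 2 ∨ τ q = 3) ∧ (τ n = 3 ∨ τ n = 1))) ∧
    (∀ s q, Cr G (t v) v s → Sr G (!c v) v q → Good G s →
      (τ v = 1 → τ s = 1) ∧
      ((τ v = 2 ∨ τ v = 3) → τ s = 0 ∨
        ((τ s = 2 ∨ τ s = 3) ∧ c s = c v ∧ (τ s = 2 ↔ τ q = 1 ∨ τ q = 2))))

end Enc

/-! ### The same rule for functions -/

/-- The rule for functions: `σ j v` are the line neighbours, `ch i v` the children of `v` and `Gd`
the set of good points. -/
def FRule {X : Type} (Gd : Set X) (σ ch : Bool → X → X) (t c : X → Bool) (τ : X → Fin 4)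
    (v : X) : Prop :=
  (∀ j, t (σ j v) = t v ∧ (τ (σ j v) = 0 ↔ τ v = 0) ∧
      (σ j v ∈ Gd → ¬ (τ v = 1 ∧ τ (σ j v) = 1) ∧
        (τ v ≠ 1 → τ (σ j v) ≠ 1 → c (σ j v) ≠ c v))) ∧
    ((τ v = 2 → (τ (σ (!c v) v) = 1 ∨ τ (σ (!c v) v) = 2) ∧
        (τ (σ (c v) v) = 2 ∨ τ (σ (c v) v) = 3)) ∧
      (τ v = 3 → (τ (σ (!c v) v) = 2 ∨ τ (σ (!c v) v) = 3) ∧
        (τ (σ (c v) v) = 3 ∨ τ (σ (c v) v) = 1))) ∧
    (ch (t v) v ∈ Gd →
      (τ v = 1 → τ (ch (t v) v) = 1) ∧
      ((τ v = 2 ∨ τ v = 3) → τ (ch (t v) v) = 0 ∨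
        ((τ (ch (t v) v) = 2 ∨ τ (ch (t v) v) = 3) ∧ c (ch (t v) v) = c v ∧
          (τ (ch (t v) v) = 2 ↔ τ (σ (!c v) v) = 1 ∨ τ (σ (!c v) v) = 2))))

/-- The walk along the line of `v` with `k` steps, of alternating types, the first of type `j`. -/
def zz {X : Type} (σ : Bool → X → X) : Bool → ℕ → X → X
  | _, 0, v => v
  | j, k + 1, v => zz σ (!j) k (σ j v)

/-- A structure of lines and children on a space `X`, along a relation `R`. -/
structure Str (X : Type) [MeasurableSpace X] (R : X → X → Prop) where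
  /-- the good points -/
  Gd : Set X
  /-- line neighbours -/
  σ : Bool → X → X
  /-- children -/
  ch : Bool → X → X
  /-- the parent -/
  p : X → X
  mGd : MeasurableSet Gd
  mσ : ∀ j, Measurable (σ j)
  mch : ∀ i, Measurable (ch i)
  mp : Measurable p
  ne : ∀ v ∈ Gd, ∀ j, σ j v ≠ v
  inv : ∀ v ∈ Gd, ∀ j, σ j (σ j v) = v
  par : ∀ v ∈ Gd, ∀ i, p (ch i v) = v
  chne : ∀ v ∈ Gd, ch false v ≠ ch true v
  comm : ∀ v ∈ Gd, ∀ i j, σ j (ch i v) = ch i (σ j v)
  Rσ : ∀ v ∈ Gd, ∀ j, R v (σ j v)
  Rch : ∀ v ∈ Gd, ∀ i, R v (ch i v)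

namespace Str

variable {X : Type} [MeasurableSpace X] {R : X → X → Prop} (S : Str X R)

/-- The points whose whole line is good. -/
def U : Set X := {v | ∀ j k, zz S.σ j k v ∈ S.Gd}

/-- `Vs k`: the points such that all paths of `k` points going down to children stay in `U`. -/
def Vs : ℕ → Set X
  | 0 => Set.univ
  | k + 1 => {v | v ∈ S.U ∧ ∀ i, S.ch i v ∈ Vs k}

/-- The points all of whose descendants are in `U`. -/
def Vinf : Set X := {v | ∀ k, v ∈ S.Vs k}

open Classical in
/-- The length of the shortest path down to a point outside `U`. -/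
noncomputable def N (v : X) : ℕ := if h : ∃ k, v ∉ S.Vs (k + 1) then Nat.find h else 0

open Classical in
/-- The type of the child in the direction of such a shortest path. -/
noncomputable def t (v : X) : Bool :=
  if v ∈ S.U ∧ ∃ k, S.ch true v ∉ S.Vs k ∧ S.ch false v ∈ S.Vs k then true else false

/-- The chosen child. -/
noncomputable def s (v : X) : X := S.ch (S.t v) v

/-- `Am m`: the points `v` at the bottom (`N v = 1`) for which there is a chain of length `m`
going up from `v`, i.e. a point `u` with `N u = m + 1` and `s^m u = v`. -/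
def Am (m : ℕ) : Set X :=
  {v | v ∈ S.U ∧ S.N v = 1 ∧ ∃ u, u ∈ S.U ∧ u ∉ S.Vinf ∧ S.N u = m + 1 ∧ S.s^[m] u = v}

/-- The bottoms of infinitely long chains. -/
def Binf : Set X := {v | ∀ m, v ∈ S.Am m}

end Str

end Pool.Agent.W927.MT
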