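import Pool.Agent.W927.MT.Lab0

/-!
The labelling (from FACTS, SEP, ORI).
-/

namespace Pool.Agent.W927.MT

open MeasureTheory

section

variable {X : Type} [MeasurableSpace X] [StandardBorelSpace X] {R : X → X → Prop}
  {S : Str X R}

/-- What SEP and ORI give: walls `W` and directions `c0` at the bottom. -/
structure Wal (S : Str X R) (W : Set X) (c0 : X → Bool) : Prop where
  mW : MeasurableSet W
  mc : Measurable c0
  sub : W ⊆ Bo S
  notRt : ∀ v ∈ W, v ∉ Rt S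
  notGd : ∀ v ∈ W, S.s v ∉ S.Gd
  sep : ∀ v ∈ W, ∀ j k, 1 ≤ k → k ≤ Mx S v + 3 → zz S.σ j k v ∉ W
  alt : ∀ v ∈ Bo S, v ∉ W → ∀ j, S.σ j v ∉ W → c0 (S.σ j v) ≠ c0 v
  alt' : ∀ v ∈ S.Gd, v ∉ S.U → ∀ j, S.σ j v ∈ S.Gd → S.σ j v ∉ S.U → c0 (S.σ j v) ≠ c0 v
  ex : ∀ v ∈ Bo S, v ∉ W → v ∉ Rt S → ∃ k, zz S.σ (c0 v) k v ∈ W

theorem exists_wal (F : Facts S) (h1 : S_SEP) (h2 : S_ORI) :
    ∃ W c0, Wal S W c0 := by
  classical
  have hLσ : ∀ v ∈ {v | v ∈ Bo S ∧ v ∉ Rt S}, ∀ j, S.σ j v ∈ {v | v ∈ Bo S ∧ v ∉ Rt S} := by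
    rintro v ⟨hv, hv'⟩ j
    exact ⟨Bo_σ F hv j, fun h => hv' ((Rt_σ F hv.1 j).1 h)⟩
  obtain ⟨W, hWA, hWm, hW1, hW2⟩ := h1 X S.σ {v | v ∈ Bo S ∧ v ∉ Rt S}
    {v | (v ∈ Bo S ∧ v ∉ Rt S) ∧ S.s v ∉ S.Gd} (fun v => Mx S v + 3) S.mσ
    ((measurableSet_Bo F).inter (measurableSet_Rt F).compl)
    (((measurableSet_Bo F).inter (measurableSet_Rt F).compl).inter (F.ms S.mGd).compl)
    (fun v hv => hv.1) ((measurable_Mx F).add_const 3) hLσ
    (fun v hv j => hinvU F v hv.1.1 j) (fun v hv j => by rw [Mx_σ F hv.1.1 j])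
    (fun v hv j k h => hv.2 ⟨j, k, h⟩)
  have hDm : MeasurableSet ({v | v ∈ S.Gd ∧ v ∉ S.U} ∪ {v | v ∈ Bo S ∧ v ∉ W}) :=
    (S.mGd.inter F.mU.compl).union ((measurableSet_Bo F).inter hWm.compl)
  have hDG : ∀ v ∈ {v | v ∈ S.Gd ∧ v ∉ S.U} ∪ {v | v ∈ Bo S ∧ v ∉ W}, v ∈ S.Gd := by
    rintro v (h | h)
    · exact h.1
    · exact F.U_Gd h.1.1
  have hexit : ∀ v ∈ Bo S, v ∉ Rt S → ∃ j k, zz S.σ j k v ∈ W := by
    intro v hv hr
    have hs := F.s_out v hv.1 hv.2.1 hv.2.2.1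
    have : ∃ j k, zz S.σ j k (S.s v) ∉ S.Gd := by
      by_contra hh
      push Not at hh
      exact hs hh
    obtain ⟨j, k, hjk⟩ := this
    have hL : ∀ i, zz S.σ j i v ∈ {v | v ∈ Bo S ∧ v ∉ Rt S} := fun i =>
      zz_mem hLσ (show v ∈ {v | v ∈ Bo S ∧ v ∉ Rt S} from ⟨hv, hr⟩) j i
    obtain ⟨j', k', -, hW'⟩ := hW2 (zz S.σ j k v) ⟨hL k, by rw [s_zz F hv.1]; exact hjk⟩
    obtain ⟨j'', k'', h⟩ := Lp_zz F.U_σ (hinvU F) hv.1
      (w := zz S.σ j k v) ⟨j, k, rfl⟩ j' k'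
    exact ⟨j'', k'', h ▸ hW'⟩
  obtain ⟨c0, hc0m, hc1, hc2⟩ := h2 X S.σ _ S.mσ hDm
    (fun v hv j => S.inv v (hDG v hv) j) (fun v hv j => S.ne v (hDG v hv) j) (by
      rintro v (hv | hv)
      · left
        have : ∃ j k, zz S.σ j k v ∉ S.Gd := by
          by_contra hh
          push Not at hh
          exact hv.2 hh
        obtain ⟨j, k, hjk⟩ := this
        exact ⟨j, k, fun h => hjk (hDG _ h)⟩
      · by_cases hr : v ∈ Rt S
        · right
          obtain ⟨j, k, h⟩ := hr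
          exact ⟨j, k + 1, by omega, h⟩
        · left
          obtain ⟨j, k, h⟩ := hexit v hv.1 hr
          refine ⟨j, k, ?_⟩
          rintro (h' | h')
          · exact h'.2 (F.zz_U v hv.1.1 j k)
          · exact h'.2 h)
  refine ⟨W, c0, hWm, hc0m, fun v hv => (hWA hv).1.1, fun v hv => (hWA hv).1.2,
    fun v hv => (hWA hv).2, fun v hv j k hk hk' => hW1 v hv j k hk hk', ?_, ?_, ?_⟩
  · intro v hv hw j hj
    exact hc1 v (Or.inr ⟨hv, hw⟩) j (Or.inr ⟨Bo_σ F hv j, hj⟩)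
  · intro v hv hw j hj hj'
    exact hc1 v (Or.inl ⟨hv, hw⟩) j (Or.inl ⟨hj, hj'⟩)
  · intro v hv hw hr
    have hB : ∀ j k, zz S.σ j k v ∈ Bo S := fun j k =>
      zz_mem (fun v hv j => Bo_σ F hv j) hv j k
    obtain ⟨j, k, h⟩ := hexit v hv hr
    obtain ⟨l, hl⟩ := hc2 v (Or.inr ⟨hv, hw⟩) ⟨j, k, by
      rintro (h' | h')
      · exact h'.2 (hB j k).1
      · exact h'.2 h⟩
    refine ⟨l, ?_⟩
    by_contra hh
    exact hl (Or.inr ⟨hB _ _, hh⟩)

/-- There is a wall at distance at most `K` in the chosen direction. -/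
def Wd (S : Str X R) (W : Set X) (c0 : X → Bool) (b : X) (K : ℕ) : Prop :=
  ∃ k, 1 ≤ k ∧ k ≤ K ∧ zz S.σ (c0 b) k b ∈ W

open Classical in
/-- The direction label. -/
noncomputable def cc (S : Str X R) (c0 : X → Bool) (v : X) : Bool :=
  if v ∈ S.U ∧ v ∉ S.Vinf then c0 (bt S v) else c0 v

open Classical in
/-- The state label. -/
noncomputable def tt (S : Str X R) (W : Set X) (c0 : X → Bool) (v : X) : Fin 4 :=
  if v ∈ S.U ∧ v ∉ S.Vinf then
    if bt S v ∈ Rt S then 0 else if bt S v ∈ W then 1 else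
      if Wd S W c0 (bt S v) (S.N v) then 3 else 2
  else 0

section

variable {W : Set X} {c0 : X → Bool}

theorem tt_out {v : X} (hv : v ∉ S.U) : tt S W c0 v = 0 := by
  unfold tt; rw [if_neg (fun h => hv h.1)]

theorem cc_out {v : X} (hv : v ∉ S.U) : cc S c0 v = c0 v := by
  unfold cc; rw [if_neg (fun h => hv h.1)]

theorem cc_in {v : X} (hv : v ∈ S.U) (hv' : v ∉ S.Vinf) : cc S c0 v = c0 (bt S v) := by
  unfold cc; rw [if_pos ⟨hv, hv'⟩]

theorem tt_zero {v : X} (hv : v ∈ S.U) (hv' : v ∉ S.Vinf) :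
    tt S W c0 v = 0 ↔ bt S v ∈ Rt S := by
  unfold tt; rw [if_pos ⟨hv, hv'⟩]
  by_cases h : bt S v ∈ Rt S
  · simp [h]
  · rw [if_neg h]
    refine ⟨fun h' => ?_, fun h' => absurd h' h⟩
    split_ifs at h' <;> exact absurd h' (by decide)

theorem tt_one (w : Wal S W c0) {v : X} (hv : v ∈ S.U) (hv' : v ∉ S.Vinf) :
    tt S W c0 v = 1 ↔ bt S v ∈ W := by
  unfold tt; rw [if_pos ⟨hv, hv'⟩]
  by_cases h : bt S v ∈ Rt S
  · rw [if_pos h]
    exact ⟨fun h' => absurd h' (by decide), fun h' => absurd h (w.notRt _ h')⟩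
  · rw [if_neg h]
    by_cases h2 : bt S v ∈ W
    · simp [h2]
    · rw [if_neg h2]
      refine ⟨fun h' => ?_, fun h' => absurd h' h2⟩
      split_ifs at h' <;> exact absurd h' (by decide)

theorem tt_three (w : Wal S W c0) {v : X} (hv : v ∈ S.U) (hv' : v ∉ S.Vinf)
    (h1 : bt S v ∉ Rt S) (h2 : bt S v ∉ W) :
    (Wd S W c0 (bt S v) (S.N v) → tt S W c0 v = 3) ∧
    (¬ Wd S W c0 (bt S v) (S.N v) → tt S W c0 v = 2) := by
  unfold tt; rw [if_pos ⟨hv, hv'⟩, if_neg h1, if_neg h2]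
  exact ⟨fun h => if_pos h, fun h => if_neg h⟩

theorem tt_23 (w : Wal S W c0) {v : X} (hv : v ∈ S.U) (hv' : v ∉ S.Vinf)
    (h1 : bt S v ∉ Rt S) (h2 : bt S v ∉ W) : tt S W c0 v = 2 ∨ tt S W c0 v = 3 := by
  by_cases h : Wd S W c0 (bt S v) (S.N v)
  · exact Or.inr ((tt_three w hv hv' h1 h2).1 h)
  · exact Or.inl ((tt_three w hv hv' h1 h2).2 h)

theorem tt_2_iff (w : Wal S W c0) {v : X} (hv : v ∈ S.U) (hv' : v ∉ S.Vinf) :
    tt S W c0 v = 2 ↔ bt S v ∉ Rt S ∧ bt S v ∉ W ∧ ¬ Wd S W c0 (bt S v) (S.N v) := by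
  constructor
  · intro h
    have h1 : bt S v ∉ Rt S := fun h' => by
      rw [(tt_zero hv hv').2 h'] at h; exact absurd h (by decide)
    have h2 : bt S v ∉ W := fun h' => by
      rw [(tt_one w hv hv').2 h'] at h; exact absurd h (by decide)
    refine ⟨h1, h2, fun h3 => ?_⟩
    rw [(tt_three w hv hv' h1 h2).1 h3] at h; exact absurd h (by decide)
  · rintro ⟨h1, h2, h3⟩
    exact (tt_three w hv hv' h1 h2).2 h3

theorem tt_3_iff (w : Wal S W c0) {v : X} (hv : v ∈ S.U) (hv' : v ∉ S.Vinf) :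
    tt S W c0 v = 3 ↔ bt S v ∉ Rt S ∧ bt S v ∉ W ∧ Wd S W c0 (bt S v) (S.N v) := by
  constructor
  · intro h
    have h1 : bt S v ∉ Rt S := fun h' => by
      rw [(tt_zero hv hv').2 h'] at h; exact absurd h (by decide)
    have h2 : bt S v ∉ W := fun h' => by
      rw [(tt_one w hv hv').2 h'] at h; exact absurd h (by decide)
    refine ⟨h1, h2, ?_⟩
    by_contra h3
    rw [(tt_three w hv hv' h1 h2).2 h3] at h; exact absurd h (by decide)
  · rintro ⟨h1, h2, h3⟩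
    exact (tt_three w hv hv' h1 h2).1 h3

/-- The previous point is a wall: the next wall is far. -/
theorem prev_wall (F : Facts S) (w : Wal S W c0) {b : X} (hb : b ∈ Bo S)
    (hp : S.σ (!c0 b) b ∈ W) {K : ℕ} (hK : K ≤ Mx S b + 2) : ¬ Wd S W c0 b K := by
  rintro ⟨k, h1, h2, h3⟩
  refine w.sep _ hp (!c0 b) (k + 1) (by omega) (by rw [Mx_σ F hb.1]; omega) ?_
  rw [zz_succ, hinvU F b hb.1, Bool.not_not]
  exact h3

/-- The previous point is not a wall. -/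
theorem prev_not (F : Facts S) (w : Wal S W c0) {b : X} (hb : b ∈ Bo S) (hbW : b ∉ W)
    (hp : S.σ (!c0 b) b ∉ W) (K : ℕ) :
    Wd S W c0 (S.σ (!c0 b) b) (K + 1) ↔ Wd S W c0 b K := by
  have h0 : c0 (S.σ (!c0 b) b) = !c0 b := by
    have := w.alt b hb hbW _ hp
    revert this
    generalize c0 (S.σ (!c0 b) b) = x
    generalize c0 b = y
    cases x <;> cases y <;> simp
  have hz : ∀ k, zz S.σ (c0 (S.σ (!c0 b) b)) (k + 1) (S.σ (!c0 b) b) = zz S.σ (c0 b) k b := by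
    intro k
    rw [zz_succ, h0, hinvU F b hb.1, Bool.not_not]
  constructor
  · rintro ⟨k, h1, h2, h3⟩
    obtain ⟨k, rfl⟩ : ∃ l, k = l + 1 := ⟨k - 1, by omega⟩
    rw [hz] at h3
    refine ⟨k, ?_, by omega, h3⟩
    rcases Nat.eq_zero_or_pos k with rfl | hk
    · rw [zz_zero] at h3; exact absurd h3 hbW
    · exact hk
  · rintro ⟨k, h1, h2, h3⟩
    exact ⟨k + 1, by omega, by omega, by rw [hz]; exact h3⟩

/-- The next point is not a wall. -/
theorem next_not (w : Wal S W c0) {b : X} (hb : b ∈ Bo S) (hbW : b ∉ W)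
    (hp : S.σ (c0 b) b ∉ W) {K : ℕ} (h : Wd S W c0 b K) :
    Wd S W c0 (S.σ (c0 b) b) K := by
  have h0 : c0 (S.σ (c0 b) b) = !c0 b := by
    have := w.alt b hb hbW _ hp
    revert this
    generalize c0 (S.σ (c0 b) b) = x
    generalize c0 b = y
    cases x <;> cases y <;> simp
  obtain ⟨k, h1, h2, h3⟩ := h
  obtain ⟨k, rfl⟩ : ∃ l, k = l + 1 := ⟨k - 1, by omega⟩
  rw [zz_succ] at h3
  refine ⟨k, ?_, by omega, by rw [h0]; exact h3⟩
  rcases Nat.eq_zero_or_pos k with rfl | hk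
  · rw [zz_zero] at h3; exact absurd h3 hp
  · exact hk

/-- The next point is a wall. -/
theorem next_wall {b : X} (hp : S.σ (c0 b) b ∈ W) {K : ℕ} (hK : 1 ≤ K) : Wd S W c0 b K :=
  ⟨1, le_rfl, hK, by rw [zz_succ, zz_zero]; exact hp⟩

theorem rule_out (F : Facts S) (w : Wal S W c0) {v : X} (hv : v ∈ S.Gd) (hvU : v ∉ S.U) :
    FRule S.Gd S.σ S.ch S.t (cc S c0) (tt S W c0) v := by
  have h1 : ∀ j, S.σ j v ∉ S.U := fun j h => hvU (F.σ_U v hv j h)
  have h0 : tt S W c0 v = 0 := tt_out hvU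
  refine ⟨fun j => ⟨?_, ?_, fun hg => ⟨?_, fun _ _ => ?_⟩⟩, ⟨?_, ?_⟩, fun _ => ⟨?_, ?_⟩⟩
  · rw [F.t_out v hvU, F.t_out _ (h1 j)]
  · rw [tt_out hvU, tt_out (h1 j)]
  · rw [h0]; intro h; exact absurd h.1 (by decide)
  · rw [cc_out hvU, cc_out (h1 j)]
    exact w.alt' v hv hvU j hg (h1 j)
  · rw [h0]; intro h; exact absurd h (by decide)
  · rw [h0]; intro h; exact absurd h (by decide)
  · rw [h0]; intro h; exact absurd h (by decide)
  · rw [h0]; intro h; exact absurd h (by decide)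

theorem rule_in (F : Facts S) (w : Wal S W c0) {v : X} (hvU : v ∈ S.U)
    (hvV : v ∉ S.Vinf) (hvB : bt S v ∉ S.Binf) :
    FRule S.Gd S.σ S.ch S.t (cc S c0) (tt S W c0) v := by
  have hN := F.N_pos v hvU hvV
  have hU : ∀ j, S.σ j v ∈ S.U := fun j => F.U_σ v hvU j
  have hV : ∀ j, S.σ j v ∉ S.Vinf := fun j h => hvV ((F.Vinf_σ v hvU j).1 h)
  have hb : ∀ j, bt S (S.σ j v) = S.σ j (bt S v) := fun j => bt_σ F hvU hvV j
  have hBo : bt S v ∈ Bo S := ⟨bt_U F hvU hvV, bt_Vinf F hvU hvV, bt_N F hvU hvV, hvB⟩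
  have hM : S.N v ≤ Mx S (bt S v) := N_le_Mx F hvU hvV hvB
  have hcv : cc S c0 v = c0 (bt S v) := cc_in hvU hvV
  refine ⟨fun j => ⟨?_, ?_, fun hg => ⟨?_, fun h1 h2 => ?_⟩⟩, ⟨?_, ?_⟩, fun hg => ⟨?_, ?_⟩⟩
  · exact F.t_σ v hvU j
  · rw [tt_zero (hU j) (hV j), tt_zero hvU hvV, hb, Rt_σ F hBo.1]
  · rw [tt_one w hvU hvV, tt_one w (hU j) (hV j), hb]
    rintro ⟨h1, h2⟩
    refine w.sep _ h1 j 1 le_rfl (by omega) ?_
    rw [zz_succ, zz_zero]; exact h2
  · rw [Ne, tt_one w hvU hvV] at h1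
    rw [Ne, tt_one w (hU j) (hV j), hb] at h2
    rw [cc_in (hU j) (hV j), hcv, hb]
    exact w.alt _ hBo h1 j h2
  · -- state 2
    intro h
    obtain ⟨h1, h2, h3⟩ := (tt_2_iff w hvU hvV).1 h
    rw [hcv]
    constructor
    · by_cases hp : S.σ (!c0 (bt S v)) (bt S v) ∈ W
      · left
        rw [tt_one w (hU _) (hV _), hb]; exact hp
      · right
        rw [tt_2_iff w (hU _) (hV _), hb, Rt_σ F hBo.1, F.N_σ v hvU]
        refine ⟨h1, hp, fun h4 => h3 ?_⟩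
        obtain ⟨K, hK⟩ : ∃ K, S.N v = K + 1 := ⟨S.N v - 1, by omega⟩
        rw [hK, prev_not F w hBo h2 hp] at h4
        obtain ⟨k, h5, h6, h7⟩ := h4
        exact ⟨k, h5, by omega, h7⟩
    · have hp : S.σ (c0 (bt S v)) (bt S v) ∉ W := fun hp => h3 (next_wall hp (by omega))
      refine tt_23 w (hU _) (hV _) ?_ ?_
      · rw [hb, Rt_σ F hBo.1]; exact h1
      · rw [hb]; exact hp
  · -- state 3
    intro h
    obtain ⟨h1, h2, h3⟩ := (tt_3_iff w hvU hvV).1 h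
    rw [hcv]
    constructor
    · have hp : S.σ (!c0 (bt S v)) (bt S v) ∉ W := fun hp =>
        prev_wall F w hBo hp (by omega) h3
      refine tt_23 w (hU _) (hV _) ?_ ?_
      · rw [hb, Rt_σ F hBo.1]; exact h1
      · rw [hb]; exact hp
    · by_cases hp : S.σ (c0 (bt S v)) (bt S v) ∈ W
      · right
        rw [tt_one w (hU _) (hV _), hb]; exact hp
      · left
        rw [tt_3_iff w (hU _) (hV _), hb, Rt_σ F hBo.1, F.N_σ v hvU]
        exact ⟨h1, hp, next_not w hBo h2 hp h3⟩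
  · -- walls go down
    intro h
    rw [tt_one w hvU hvV] at h
    have h2 : 2 ≤ S.N v := by
      by_contra hh
      have h1 : S.N v = 1 := by omega
      rw [bt_one h1] at h
      exact w.notGd _ h hg
    change tt S W c0 (S.s v) = 1
    rw [tt_one w (F.s_U v hvU hvV h2) (F.s_Vinf v hvU hvV), bt_s F hvU hvV h2]
    exact h
  · intro h
    have h1 : bt S v ∉ Rt S := fun h' => by
      rw [(tt_zero hvU hvV).2 h'] at h; exact absurd h (by decide)
    have h2 : bt S v ∉ W := fun h' => by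
      rw [(tt_one w hvU hvV).2 h'] at h; exact absurd h (by decide)
    change tt S W c0 (S.s v) = 0 ∨ ((tt S W c0 (S.s v) = 2 ∨ tt S W c0 (S.s v) = 3) ∧
      cc S c0 (S.s v) = cc S c0 v ∧ (tt S W c0 (S.s v) = 2 ↔ _))
    by_cases hN2 : 2 ≤ S.N v
    · right
      have hsU := F.s_U v hvU hvV hN2
      have hsV := F.s_Vinf v hvU hvV
      have hsb := bt_s F hvU hvV hN2
      refine ⟨tt_23 w hsU hsV (by rw [hsb]; exact h1) (by rw [hsb]; exact h2), ?_, ?_⟩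
      · rw [cc_in hsU hsV, hcv, hsb]
      · rw [tt_2_iff w hsU hsV, hsb, hcv, tt_one w (hU _) (hV _), tt_2_iff w (hU _) (hV _), hb,
          Rt_σ F hBo.1, F.N_σ v hvU]
        have hNs := F.N_s v hvU hvV
        constructor
        · rintro ⟨-, -, h3⟩
          by_cases hp : S.σ (!c0 (bt S v)) (bt S v) ∈ W
          · exact Or.inl hp
          · right
            refine ⟨h1, hp, ?_⟩
            rw [← hNs, prev_not F w hBo h2 hp]
            exact h3
        · rintro (hp | ⟨-, hp, h3⟩)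
          · exact ⟨h1, h2, prev_wall F w hBo hp (by omega)⟩
          · rw [← hNs, prev_not F w hBo h2 hp] at h3
            exact ⟨h1, h2, h3⟩
    · left
      exact tt_out (F.s_out v hvU hvV (by omega))

theorem measurable_cc (F : Facts S) (w : Wal S W c0) : Measurable (cc S c0) := by
  classical
  unfold cc
  exact Measurable.ite (F.mU.inter F.mVinf.compl) (w.mc.comp (measurable_bt F)) w.mc

theorem measurableSet_Wd (F : Facts S) (w : Wal S W c0) :
    MeasurableSet {v | Wd S W c0 (bt S v) (S.N v)} := by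
  have hb := measurable_bt F
  have : {v | Wd S W c0 (bt S v) (S.N v)} =
      ⋃ k : ℕ, ({v | 1 ≤ k ∧ k ≤ S.N v} ∩
        (({v | c0 (bt S v) = true} ∩ {v | zz S.σ true k (bt S v) ∈ W}) ∪
          ({v | c0 (bt S v) = false} ∩ {v | zz S.σ false k (bt S v) ∈ W}))) := by
    ext v
    simp only [Wd, Set.mem_ofPred_eq, Set.mem_iUnion, Set.mem_inter_iff, Set.mem_union]
    constructor
    · rintro ⟨k, h1, h2, h3⟩
      refine ⟨k, ⟨h1, h2⟩, ?_⟩
      cases hc : c0 (bt S v)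
      · right; rw [hc] at h3; exact ⟨rfl, h3⟩
      · left; rw [hc] at h3; exact ⟨rfl, h3⟩
    · rintro ⟨k, ⟨h1, h2⟩, (⟨h3, h4⟩ | ⟨h3, h4⟩)⟩
      · exact ⟨k, h1, h2, by rw [h3]; exact h4⟩
      · exact ⟨k, h1, h2, by rw [h3]; exact h4⟩
  rw [this]
  refine MeasurableSet.iUnion fun k => MeasurableSet.inter ?_ (MeasurableSet.union ?_ ?_)
  · exact (MeasurableSet.const _).inter (F.mN (measurableSet_Ici : MeasurableSet (Set.Ici k)))
  · exact ((w.mc.comp hb) (measurableSet_singleton true)).inter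
      (((F.mzz true k).comp hb) w.mW)
  · exact ((w.mc.comp hb) (measurableSet_singleton false)).inter
      (((F.mzz false k).comp hb) w.mW)

theorem measurable_tt (F : Facts S) (w : Wal S W c0) : Measurable (tt S W c0) := by
  classical
  unfold tt
  refine Measurable.ite (F.mU.inter F.mVinf.compl) ?_ measurable_const
  refine Measurable.ite (measurable_bt F (measurableSet_Rt F)) measurable_const ?_
  refine Measurable.ite (measurable_bt F w.mW) measurable_const ?_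
  exact Measurable.ite (measurableSet_Wd F w) measurable_const measurable_const

end

end

/-- LAB. -/
theorem lab (h0 : S_FACTS) (h1 : S_SEP) (h2 : S_ORI) : S_LAB := by
  intro X _ _ R hR S
  have F := h0 X R S
  obtain ⟨W, c0, w⟩ := exists_wal F h1 h2
  refine ⟨S.t, cc S c0, tt S W c0, F.mt, measurable_cc F w, measurable_tt F w, ?_⟩
  intro v hv hw
  by_cases hvU : v ∈ S.U
  · have hvV := (hw v (hR.refl v)).1
    exact rule_in F w hvU hvV (hw _ (R_bt F hR hvU hvV)).2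
  · exact rule_out F w hv hvU

end Pool.Agent.W927.MT
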