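import Pool.Agent.W927.MT.Zz

/-!
The bottom of a chain; measurability of the labels.
-/

namespace Pool.Agent.W927.MT

open MeasureTheory

theorem measurable_natFind {X : Type} [MeasurableSpace X] {P : ℕ → Set X}
    (hP : ∀ m, MeasurableSet (P m)) (f : X → ℕ)
    (hf : ∀ v m, f v = m ↔ (v ∈ P m ∧ ∀ l < m, v ∉ P l) ∨ (m = 0 ∧ ∀ l, v ∉ P l)) :
    Measurable f := by
  refine measurable_to_countable' fun m => ?_
  have : f ⁻¹' {m} = (P m ∩ ⋂ l ∈ {l | l < m}, (P l)ᶜ) ∪ ({v | m = 0} ∩ ⋂ l, (P l)ᶜ) := by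
    ext v
    simp only [Set.mem_preimage, Set.mem_singleton_iff, Set.mem_union, Set.mem_inter_iff,
      Set.mem_iInter, Set.mem_compl_iff]
    rw [hf]
    simp only [Set.mem_ofPred_eq]
  rw [this]
  refine MeasurableSet.union ((hP m).inter ?_) (MeasurableSet.inter (.const _) ?_)
  · exact MeasurableSet.biInter (Set.to_countable _) fun l _ => (hP l).compl
  · exact MeasurableSet.iInter fun l => (hP l).compl

section

variable {X : Type} [MeasurableSpace X] [StandardBorelSpace X] {R : X → X → Prop}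
  {S : Str X R}

theorem hinvU (F : Facts S) : ∀ v ∈ S.U, ∀ j, S.σ j (S.σ j v) = v :=
  fun v hv j => S.inv v (F.U_Gd hv) j

theorem hneU (F : Facts S) : ∀ v ∈ S.U, ∀ j, S.σ j v ≠ v :=
  fun v hv j => S.ne v (F.U_Gd hv) j

theorem chain (F : Facts S) {v : X} (hv : v ∈ S.U) (hv' : v ∉ S.Vinf) (i : ℕ)
    (hi : i + 1 ≤ S.N v) :
    S.s^[i] v ∈ S.U ∧ S.s^[i] v ∉ S.Vinf ∧ S.N (S.s^[i] v) + i = S.N v := by
  induction i with
  | zero => exact ⟨hv, hv', rfl⟩
  | succ i ih =>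
    obtain ⟨h1, h2, h3⟩ := ih (by omega)
    rw [Function.iterate_succ_apply']
    refine ⟨F.s_U _ h1 h2 (by omega), F.s_Vinf _ h1 h2, ?_⟩
    have := F.N_s _ h1 h2
    omega

theorem chain_σ (F : Facts S) {v : X} (hv : v ∈ S.U) (hv' : v ∉ S.Vinf) (j : Bool) (i : ℕ)
    (hi : i + 1 ≤ S.N v) : S.s^[i] (S.σ j v) = S.σ j (S.s^[i] v) := by
  induction i with
  | zero => rfl
  | succ i ih =>
    obtain ⟨h1, h2, h3⟩ := chain F hv hv' i (by omega)
    rw [Function.iterate_succ_apply', Function.iterate_succ_apply', ih (by omega),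
      F.s_σ _ h1]

theorem R_chain (F : Facts S) (hR : Equivalence R) {v : X} (hv : v ∈ S.U) (hv' : v ∉ S.Vinf)
    (i : ℕ) (hi : i + 1 ≤ S.N v) : R v (S.s^[i] v) := by
  induction i with
  | zero => exact hR.refl _
  | succ i ih =>
    obtain ⟨h1, h2, h3⟩ := chain F hv hv' i (by omega)
    rw [Function.iterate_succ_apply']
    exact hR.trans (ih (by omega)) (S.Rch _ (F.U_Gd h1) _)

/-- The bottom of the chain through `v`. -/
noncomputable def bt (S : Str X R) (v : X) : X := S.s^[S.N v - 1] v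

theorem bt_U (F : Facts S) {v : X} (hv : v ∈ S.U) (hv' : v ∉ S.Vinf) : bt S v ∈ S.U :=
  (chain F hv hv' _ (by have := F.N_pos v hv hv'; omega)).1

theorem bt_Vinf (F : Facts S) {v : X} (hv : v ∈ S.U) (hv' : v ∉ S.Vinf) : bt S v ∉ S.Vinf :=
  (chain F hv hv' _ (by have := F.N_pos v hv hv'; omega)).2.1

theorem bt_N (F : Facts S) {v : X} (hv : v ∈ S.U) (hv' : v ∉ S.Vinf) : S.N (bt S v) = 1 := by
  have h := F.N_pos v hv hv'
  have := (chain F hv hv' (S.N v - 1) (by omega)).2.2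
  unfold bt
  omega

theorem bt_s (F : Facts S) {v : X} (hv : v ∈ S.U) (hv' : v ∉ S.Vinf) (h : 2 ≤ S.N v) :
    bt S (S.s v) = bt S v := by
  unfold bt
  have h1 := F.N_s v hv hv'
  have h2 : S.N v - 1 = (S.N (S.s v) - 1) + 1 := by omega
  rw [h2, Function.iterate_succ_apply]

theorem bt_σ (F : Facts S) {v : X} (hv : v ∈ S.U) (hv' : v ∉ S.Vinf) (j : Bool) :
    bt S (S.σ j v) = S.σ j (bt S v) := by
  have h := F.N_pos v hv hv'
  unfold bt
  rw [F.N_σ v hv, chain_σ F hv hv' j _ (by omega)]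

theorem bt_one {v : X} (h : S.N v = 1) : bt S v = v := by
  unfold bt; rw [h]; rfl

theorem R_bt (F : Facts S) (hR : Equivalence R) {v : X} (hv : v ∈ S.U) (hv' : v ∉ S.Vinf) :
    R v (bt S v) :=
  R_chain F hR hv hv' _ (by have := F.N_pos v hv hv'; omega)

theorem bt_Am (F : Facts S) {v : X} (hv : v ∈ S.U) (hv' : v ∉ S.Vinf) {m : ℕ}
    (hm : m < S.N v) : bt S v ∈ S.Am m := by
  obtain ⟨h1, h2, h3⟩ := chain F hv hv' (S.N v - 1 - m) (by omega)
  refine ⟨bt_U F hv hv', bt_N F hv hv', S.s^[S.N v - 1 - m] v, h1, h2, by omega, ?_⟩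
  rw [← Function.iterate_add_apply]
  unfold bt
  congr 1
  congr 1
  omega

open Classical in
/-- The length of the chains with bottom `v`. -/
noncomputable def Mx (S : Str X R) (v : X) : ℕ :=
  if h : ∃ m, v ∉ S.Am m then Nat.find h else 0

theorem N_le_Mx (F : Facts S) {v : X} (hv : v ∈ S.U) (hv' : v ∉ S.Vinf)
    (hb : bt S v ∉ S.Binf) : S.N v ≤ Mx S (bt S v) := by
  classical
  have h : ∃ m, bt S v ∉ S.Am m := by
    by_contra hh
    push Not at hh
    exact hb hh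
  unfold Mx
  rw [dif_pos h, Nat.le_find_iff]
  intro m hm hh
  exact hh (bt_Am F hv hv' hm)

theorem Mx_σ (F : Facts S) {v : X} (hv : v ∈ S.U) (j : Bool) :
    Mx S (S.σ j v) = Mx S v := by
  classical
  unfold Mx
  have h : ∀ m, (S.σ j v ∉ S.Am m) ↔ (v ∉ S.Am m) := fun m => not_congr (F.Am_σ v hv j m)
  by_cases h1 : ∃ m, v ∉ S.Am m
  · have h2 : ∃ m, S.σ j v ∉ S.Am m := by
      obtain ⟨m, hm⟩ := h1; exact ⟨m, (h m).2 hm⟩
    rw [dif_pos h1, dif_pos h2]
    exact Nat.find_congr' (h _)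
  · have h2 : ¬ ∃ m, S.σ j v ∉ S.Am m := by
      rintro ⟨m, hm⟩; exact h1 ⟨m, (h m).1 hm⟩
    rw [dif_neg h1, dif_neg h2]

theorem measurable_Mx (F : Facts S) : Measurable (Mx S) := by
  classical
  refine measurable_natFind (P := fun m => (S.Am m)ᶜ) (fun m => (F.mAm m).compl) _ ?_
  intro v m
  unfold Mx
  by_cases h : ∃ m, v ∉ S.Am m
  · rw [dif_pos h, Nat.find_eq_iff]
    constructor
    · rintro ⟨h1, h2⟩
      exact Or.inl ⟨h1, h2⟩
    · rintro (⟨h1, h2⟩ | ⟨-, h2⟩)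
      · exact ⟨h1, h2⟩
      · obtain ⟨l, hl⟩ := h; exact absurd hl (h2 l)
  · rw [dif_neg h]
    constructor
    · rintro rfl
      exact Or.inr ⟨rfl, fun l hl => h ⟨l, hl⟩⟩
    · rintro (⟨h1, h2⟩ | ⟨h1, -⟩)
      · exact absurd ⟨m, h1⟩ h
      · exact h1.symm

theorem measurable_bt (F : Facts S) : Measurable (bt S) := by
  have h1 : ∀ n : ℕ, Measurable (S.s^[n]) := fun n => F.ms.iterate n
  have h2 : Measurable (fun p : ℕ × X => S.s^[p.1 - 1] p.2) :=
    measurable_from_prod_countable_right fun n => h1 (n - 1)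
  exact h2.comp (F.mN.prodMk measurable_id)

/-- The line of `v` returns to `v`. -/
def Rt (S : Str X R) : Set X := {v | ∃ i k, zz S.σ i (k + 1) v = v}

theorem Rt_σ (F : Facts S) {v : X} (hv : v ∈ S.U) (j : Bool) :
    S.σ j v ∈ Rt S ↔ v ∈ Rt S := by
  constructor
  · intro h
    have := ret_σ F.U_σ (hinvU F) (hneU F) (F.U_σ v hv j) j h
    rw [hinvU F v hv j] at this
    exact this
  · intro h
    exact ret_σ F.U_σ (hinvU F) (hneU F) hv j h

theorem measurableSet_Rt (F : Facts S) : MeasurableSet (Rt S) := by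
  have : Rt S = ⋃ i, ⋃ k, {v | zz S.σ i (k + 1) v = v} := by
    ext v; simp [Rt]
  rw [this]
  exact MeasurableSet.iUnion fun i => MeasurableSet.iUnion fun k =>
    measurableSet_eq_fun (F.mzz i (k + 1)) measurable_id

/-- The bottom points. -/
def Bo (S : Str X R) : Set X := {v | v ∈ S.U ∧ v ∉ S.Vinf ∧ S.N v = 1 ∧ v ∉ S.Binf}

theorem Binf_σ (F : Facts S) {v : X} (hv : v ∈ S.U) (j : Bool) :
    S.σ j v ∈ S.Binf ↔ v ∈ S.Binf := by
  constructor
  · intro h m; exact (F.Am_σ v hv j m).1 (h m)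
  · intro h m; exact (F.Am_σ v hv j m).2 (h m)

theorem Bo_σ (F : Facts S) {v : X} (hv : v ∈ Bo S) (j : Bool) : S.σ j v ∈ Bo S := by
  obtain ⟨h1, h2, h3, h4⟩ := hv
  exact ⟨F.U_σ v h1 j, fun h => h2 ((F.Vinf_σ v h1 j).1 h), by rw [F.N_σ v h1 j, h3],
    fun h => h4 ((Binf_σ F h1 j).1 h)⟩

theorem measurableSet_Bo (F : Facts S) : MeasurableSet (Bo S) := by
  have : Bo S = S.U ∩ (S.Vinfᶜ ∩ (S.N ⁻¹' {1} ∩ S.Binfᶜ)) := rfl
  rw [this]
  exact F.mU.inter (F.mVinf.compl.inter ((F.mN (measurableSet_singleton 1)).inter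
    F.mBinf.compl))

theorem s_zz (F : Facts S) {v : X} (hv : v ∈ S.U) (j : Bool) (k : ℕ) :
    S.s (zz S.σ j k v) = zz S.σ j k (S.s v) := by
  induction k with
  | zero => rw [zz_zero, zz_zero]
  | succ k ih => rw [zz_succ', zz_succ', F.s_σ _ (F.zz_U v hv j k), ih]

end

end Pool.Agent.W927.MT
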