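import Pool.Agent.W927.MT.Lab

/-!
Assembly.
-/

namespace Pool.Agent.W927.MT

open MeasureTheory
open scoped ENNReal

/-- The rule for functions implies the rule for the graph. -/
theorem rule_of_frule {V : Type} {G : SimpleGraph V} {Gd : Set V} {σ ch : Bool → V → V}
    {t c : V → Bool} {τ : V → Fin 4} (hG : ∀ v, v ∈ Gd ↔ Good G v)
    (h : ∀ v ∈ Gd, (∀ j w, Sr G j v w ↔ w = σ j v) ∧ ∀ i w, Cr G i v w ↔ w = ch i v) {v : V}
    (hf : v ∈ Gd → FRule Gd σ ch t c τ v) : Rule G t c τ v := by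
  intro hv
  have hv' := (hG v).2 hv
  obtain ⟨h1, h2⟩ := h v hv'
  obtain ⟨f1, f2, f3⟩ := hf hv'
  refine ⟨fun j w hw => ?_, fun n q hn hq => ?_, fun s q hs hq hg => ?_⟩
  · rw [h1] at hw
    subst hw
    obtain ⟨a, b, d⟩ := f1 j
    exact ⟨a, b, fun hg => d ((hG _).2 hg)⟩
  · rw [h1] at hn hq
    subst hn; subst hq
    exact f2
  · rw [h2] at hs
    rw [h1] at hq
    subst hs; subst hq
    exact f3 ((hG _).2 hg)

/-- The rule for the graph implies the rule for functions if all points are good. -/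
theorem frule_of_rule {V : Type} {G : SimpleGraph V} {t c : V → Bool} {τ : V → Fin 4}
    {X : Type} {ι : X → V} {σ ch : Bool → X → X} (hG : ∀ x, Good G (ι x))
    (h1 : ∀ j x w, Sr G j (ι x) w ↔ w = ι (σ j x)) (h2 : ∀ i x w, Cr G i (ι x) w ↔ w = ι (ch i x))
    {x : X} (hr : Rule G t c τ (ι x)) :
    FRule Set.univ σ ch (fun x => t (ι x)) (fun x => c (ι x)) (fun x => τ (ι x)) x := by
  obtain ⟨f1, f2, f3⟩ := hr (hG x)
  refine ⟨fun j => ?_, ?_, fun _ => ?_⟩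
  · obtain ⟨a, b, d⟩ := f1 j _ ((h1 j x _).2 rfl)
    exact ⟨a, b, fun _ => d (hG _)⟩
  · exact f2 _ _ ((h1 _ x _).2 rfl) ((h1 _ x _).2 rfl)
  · exact f3 _ _ ((h2 _ x _).2 rfl) ((h1 _ x _).2 rfl) (hG _)

/-- All hubs are good. -/
theorem good_hub (hA : S_G0A) {Y : Type} {σ : Bool → Y → Y} (hi : ∀ j y, σ j (σ j y) = y)
    (hn : ∀ j y, σ j y ≠ y) (n : ℕ) (y : Y) : Good (G0 σ) ((n, .hub), y) := by
  obtain ⟨-, h1, h2, h3⟩ := hA Y σ hi hn
  have hok : ∀ n y, Ok (G0 σ) ((n, J.hub), y) := by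
    intro n y
    refine ⟨fun j => ⟨_, (h1 j n y _).2 rfl, fun w hw => (h1 j n y w).1 hw⟩,
      fun i => ⟨_, (h2 i n y _).2 rfl, fun w hw => (h2 i n y w).1 hw⟩, ?_⟩
    have hn2 : n = chn (decide (n % 2 = 1)) (n / 2) := by
      unfold chn
      rcases Nat.mod_two_eq_zero_or_one n with h | h
      · rw [decide_eq_false (by omega)]; simp only [Bool.toNat_false]; omega
      · rw [decide_eq_true h]; simp only [Bool.toNat_true]; omega
    refine ⟨(decide (n % 2 = 1), ((n / 2, J.hub), y)), (h3 _ n y _).2 ⟨rfl, hn2⟩, ?_⟩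
    rintro ⟨i, w⟩ hw
    obtain ⟨hw1, hw2⟩ := (h3 i n y w).1 hw
    have : i = decide (n % 2 = 1) := by
      cases i
      · symm
        apply decide_eq_false
        unfold chn at hw2; simp only [Bool.toNat_false] at hw2; omega
      · symm
        apply decide_eq_true
        unfold chn at hw2; simp only [Bool.toNat_true] at hw2; omega
    rw [this, hw1]
  refine ⟨hok n y, fun j w hw => ?_, fun i w hw => ?_, fun i j x y' z hx hy hz => ?_⟩
  · rw [h1] at hw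
    subst hw
    refine ⟨fun h => hn j y (congrArg Prod.snd h), hok _ _⟩
  · rw [h2] at hw
    subst hw
    exact hok _ _
  · rw [h2] at hx
    rw [h1] at hy
    subst hx; subst hy
    rw [h2] at hz
    subst hz
    rw [h1]

/-- The labelling problem: the labels `Fin k` stand for `Bool × Bool × Fin 4` by `e`. -/
theorem pos (hENUM : S_ENUM) (hFUN : S_FUN) (hN1 : S_NULL1) (hN2 : S_NULL2) (hLAB : S_LAB)
    {k : ℕ} (e : Fin k ≃ Bool × Bool × Fin 4) {r : ℕ} {P : Set (RGType k)}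
    (hP : ∀ (V : Type) (G : SimpleGraph V), (∀ v, (G.neighborSet v).encard ≤ 7) →
      ∀ (f : V → Fin k) (v : V),
        (Quotient.mk (RG.setoid k) (ballRG G r f v) ∈ P ↔
          Rule G (fun w => (e (f w)).1) (fun w => (e (f w)).2.1) (fun w => (e (f w)).2.2) v))
    (M : MeasuredGraph 7) (hM : M.MTP) :
    ∃ f : M.X → Fin k, Measurable f ∧
      ∀ᵐ x ∂M.μ, Quotient.mk (RG.setoid k) (ballRG M.G r f x) ∈ P := by
  have hR : Equivalence M.G.Reachable :=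
    ⟨fun x => .refl x, fun h => h.symm, fun h h' => h.trans h'⟩
  obtain ⟨g, hg1, hg2, hg3⟩ := hENUM M.X M.G 7 M.borel M.deg
  obtain ⟨S, hS1, hS2⟩ := hFUN M.X M.G 7 g M.deg hg1 hg2 hg3
  obtain ⟨t, c, τ, ht, hc, hτ, hl⟩ := hLAB M.X M.G.Reachable hR S
  have hn : M.μ (S.Vinf ∪ S.Binf) = 0 :=
    measure_union_null (hN1 M.X M.μ M.G.Reachable hR hM S)
      (hN2 M.X M.μ M.G.Reachable hR hM S)
  have hq := M.qi _ hn
  refine ⟨fun x => e.symm (t x, c x, τ x), ?_, ?_⟩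
  · have he : Measurable (e.symm : Bool × Bool × Fin 4 → Fin k) := Measurable.of_discrete
    exact he.comp (ht.prodMk (hc.prodMk hτ))
  · have hae : ∀ᵐ x ∂M.μ, x ∉ {x | ∃ y ∈ S.Vinf ∪ S.Binf, M.G.Reachable y x} :=
      measure_eq_zero_iff_ae_notMem.1 hq
    filter_upwards [hae] with x hx
    rw [hP M.X M.G M.deg]
    simp only [Equiv.apply_symm_apply]
    refine rule_of_frule hS1 hS2 fun hv => hl x hv fun w hw => ?_
    constructor
    · exact fun h => hx ⟨w, Or.inl h, hw.symm⟩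
    · exact fun h => hx ⟨w, Or.inr h, hw.symm⟩

theorem neg (hROT : S_ROT) (hNEG : S_NEG) (hG0A : S_G0A) (hG0B : S_G0B)
    {k : ℕ} (e : Fin k ≃ Bool × Bool × Fin 4) {r : ℕ} {P : Set (RGType k)}
    (hP : ∀ (V : Type) (G : SimpleGraph V), (∀ v, (G.neighborSet v).encard ≤ 7) →
      ∀ (f : V → Fin k) (v : V),
        (Quotient.mk (RG.setoid k) (ballRG G r f v) ∈ P ↔
          Rule G (fun w => (e (f w)).1) (fun w => (e (f w)).2.1) (fun w => (e (f w)).2.2) v)) :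
    ∃ M : MeasuredGraph 7, ¬ ∃ f : M.X → Fin k, Measurable f ∧
      ∀ᵐ x ∂M.μ, Quotient.mk (RG.setoid k) (ballRG M.G r f x) ∈ P := by
  obtain ⟨Y, mY, sY, ν, pν, σ, hD⟩ := hROT
  obtain ⟨hB1, κ, hκ1, hκ2, hκ3⟩ := hG0B Y ν σ hD
  have hA := hG0A Y σ hD.inv hD.ne
  have sJ : StandardBorelSpace (ℕ × J) := inferInstance
  refine ⟨{ X := V0 Y, μ := κ.prod ν, G := G0 σ, borel := hB1, deg := hA.1, qi := hκ3 }, ?_⟩
  rintro ⟨f, hf, hae⟩
  change ∀ᵐ x ∂(κ.prod ν), Quotient.mk (RG.setoid k) (ballRG (G0 σ) r f x) ∈ P at hae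
  change V0 Y → Fin k at f
  have hι : Measurable (fun x : ℕ × Y => (((x.1, J.hub), x.2) : V0 Y)) :=
    (measurable_fst.prodMk measurable_const).prodMk measurable_snd
  have he : Measurable (e : Fin k → Bool × Bool × Fin 4) := Measurable.of_discrete
  have hfe : Measurable fun x : ℕ × Y => e (f ((x.1, J.hub), x.2)) := he.comp (hf.comp hι)
  refine hNEG Y ν σ hD (fun x => (e (f ((x.1, J.hub), x.2))).1)
    (fun x => (e (f ((x.1, J.hub), x.2))).2.1) (fun x => (e (f ((x.1, J.hub), x.2))).2.2)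
    hfe.fst hfe.snd.fst hfe.snd.snd ?_
  intro n
  have h1 := Measure.ae_ae_of_ae_prod hae
  have h2 : ∀ᵐ y ∂ν, Quotient.mk (RG.setoid k) (ballRG (G0 σ) r f ((n, J.hub), y)) ∈ P := by
    have h3 := mem_ae_iff.1 h1
    by_contra hh
    refine hκ2 (n, J.hub) (measure_mono_null ?_ h3)
    rintro _ rfl
    exact hh
  filter_upwards [h2] with y hy
  rw [hP (V0 Y) (G0 σ) hA.1] at hy
  exact frule_of_rule (ι := fun x : ℕ × Y => (((x.1, J.hub), x.2) : V0 Y)) (σ := σN σ) (ch := chN)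
    (x := (n, y)) (t := fun w => (e (f w)).1) (c := fun w => (e (f w)).2.1)
    (τ := fun w => (e (f w)).2.2)
    (fun x => good_hub hG0A hD.inv hD.ne x.1 x.2) (fun j x w => hA.2.1 j x.1 x.2 w)
    (fun i x w => hA.2.2.1 i x.1 x.2 w) hy

theorem main (hFORM : S_FORM) (hENUM : S_ENUM) (hFUN : S_FUN) (hN1 : S_NULL1) (hN2 : S_NULL2)
    (hLAB : S_LAB) (hROT : S_ROT) (hNEG : S_NEG) (hG0A : S_G0A) (hG0B : S_G0B) : S_MAIN := by
  obtain ⟨k, ⟨e⟩⟩ : ∃ k, Nonempty (Fin k ≃ Bool × Bool × Fin 4) :=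
    ⟨_, ⟨(Fintype.equivFin _).symm⟩⟩
  obtain ⟨r, P, hsmall, hP⟩ := hFORM k e
  exact ⟨7, ⟨k, r, P, hsmall⟩, fun M hM => pos hENUM hFUN hN1 hN2 hLAB e hP M hM,
    neg hROT hNEG hG0A hG0B e hP⟩

end Pool.Agent.W927.MT
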