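import Pool.Agent.W927.MT.Defs

/-!
The statements of the parts of the project MT.
-/

namespace Pool.Agent.W927.MT

open MeasureTheory
open scoped ENNReal

/-- FORM: the rule is a locally checkable labelling problem. -/
def S_FORM : Prop :=
  ∀ (k : ℕ) (e : Fin k ≃ Bool × Bool × Fin 4), ∃ (r : ℕ) (P : Set (RGType k)),
    (∀ B : RG k, Quotient.mk (RG.setoid k) B ∈ P →
      (∀ w, w ∈ ball B.G r B.root) ∧ ∀ w, (B.G.neighborSet w).encard ≤ 7) ∧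
    ∀ (V : Type) (G : SimpleGraph V), (∀ v, (G.neighborSet v).encard ≤ 7) →
      ∀ (f : V → Fin k) (v : V),
        (Quotient.mk (RG.setoid k) (ballRG G r f v) ∈ P ↔
          Rule G (fun w => (e (f w)).1) (fun w => (e (f w)).2.1) (fun w => (e (f w)).2.2) v)

/-- ENUM: Borel enumeration of the neighbours in a Borel graph of bounded degree. -/
def S_ENUM : Prop :=
  ∀ (X : Type) [MeasurableSpace X] [StandardBorelSpace X] (G : SimpleGraph X) (Δ : ℕ),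
    MeasurableSet {p : X × X | G.Adj p.1 p.2} → (∀ x, (G.neighborSet x).encard ≤ Δ) →
    ∃ g : Fin Δ → X → X, (∀ i, Measurable (g i)) ∧
      (∀ x y, G.Adj x y → ∃ i, g i x = y) ∧ ∀ i x, g i x = x ∨ G.Adj x (g i x)

/-- FUN: the Borel functions that describe the structure encoded in a graph. -/
def S_FUN : Prop :=
  ∀ (X : Type) [MeasurableSpace X] [StandardBorelSpace X] (G : SimpleGraph X) (Δ : ℕ)
    (g : Fin Δ → X → X), (∀ x, (G.neighborSet x).encard ≤ Δ) → (∀ i, Measurable (g i)) →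
    (∀ x y, G.Adj x y → ∃ i, g i x = y) → (∀ i x, g i x = x ∨ G.Adj x (g i x)) →
    ∃ S : Str X G.Reachable, (∀ v, v ∈ S.Gd ↔ Good G v) ∧
      ∀ v ∈ S.Gd, (∀ j w, Sr G j v w ↔ w = S.σ j v) ∧ ∀ i w, Cr G i v w ↔ w = S.ch i v

/-- NULL1: by mass transport almost every point has a descendant outside `U`. -/
def S_NULL1 : Prop :=
  ∀ (X : Type) [MeasurableSpace X] [StandardBorelSpace X] (μ : Measure X)
    [IsProbabilityMeasure μ] (R : X → X → Prop), Equivalence R → MTPR μ R →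
    ∀ S : Str X R, μ S.Vinf = 0

/-- NULL2: by mass transport the chains are finite almost everywhere. -/
def S_NULL2 : Prop :=
  ∀ (X : Type) [MeasurableSpace X] [StandardBorelSpace X] (μ : Measure X)
    [IsProbabilityMeasure μ] (R : X → X → Prop), Equivalence R → MTPR μ R →
    ∀ S : Str X R, μ S.Binf = 0

/-- Facts about the structure. -/
structure Facts {X : Type} [MeasurableSpace X] {R : X → X → Prop} (S : Str X R) : Prop where
  U_Gd : S.U ⊆ S.Gd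
  U_σ : ∀ v ∈ S.U, ∀ j, S.σ j v ∈ S.U
  σ_U : ∀ v ∈ S.Gd, ∀ j, S.σ j v ∈ S.U → v ∈ S.U
  zz_U : ∀ v ∈ S.U, ∀ j k, zz S.σ j k v ∈ S.U
  N_σ : ∀ v ∈ S.U, ∀ j, S.N (S.σ j v) = S.N v
  t_σ : ∀ v ∈ S.U, ∀ j, S.t (S.σ j v) = S.t v
  s_σ : ∀ v ∈ S.U, ∀ j, S.s (S.σ j v) = S.σ j (S.s v)
  Vinf_σ : ∀ v ∈ S.U, ∀ j, (S.σ j v ∈ S.Vinf ↔ v ∈ S.Vinf)
  Am_σ : ∀ v ∈ S.U, ∀ j m, (S.σ j v ∈ S.Am m ↔ v ∈ S.Am m)
  N_out : ∀ v, v ∉ S.U → S.N v = 0
  t_out : ∀ v, v ∉ S.U → S.t v = false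
  N_pos : ∀ v ∈ S.U, v ∉ S.Vinf → 0 < S.N v
  s_Vinf : ∀ v ∈ S.U, v ∉ S.Vinf → S.s v ∉ S.Vinf
  N_s : ∀ v ∈ S.U, v ∉ S.Vinf → S.N (S.s v) + 1 = S.N v
  s_U : ∀ v ∈ S.U, v ∉ S.Vinf → 2 ≤ S.N v → S.s v ∈ S.U
  s_out : ∀ v ∈ S.U, v ∉ S.Vinf → S.N v = 1 → S.s v ∉ S.U
  Vinf_U : S.Vinf ⊆ S.U
  p_s : ∀ v ∈ S.U, S.p (S.s v) = v
  mU : MeasurableSet S.U
  mVs : ∀ k, MeasurableSet (S.Vs k)
  mVinf : MeasurableSet S.Vinf
  mN : Measurable S.N
  mt : Measurable S.t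
  ms : Measurable S.s
  mAm : ∀ m, MeasurableSet (S.Am m)
  mBinf : MeasurableSet S.Binf
  mzz : ∀ j k, Measurable (zz S.σ j k)

/-- FACTS. -/
def S_FACTS : Prop :=
  ∀ (X : Type) [MeasurableSpace X] [StandardBorelSpace X] (R : X → X → Prop) (S : Str X R),
    Facts S

/-- SEP: Borel maximal separated subsets on lines. -/
def S_SEP : Prop :=
  ∀ (X : Type) [MeasurableSpace X] [StandardBorelSpace X] (σ : Bool → X → X) (L A : Set X)
    (r : X → ℕ), (∀ j, Measurable (σ j)) → MeasurableSet L → MeasurableSet A → A ⊆ L →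
    Measurable r → (∀ v ∈ L, ∀ j, σ j v ∈ L) → (∀ v ∈ L, ∀ j, σ j (σ j v) = v) →
    (∀ v ∈ L, ∀ j, r (σ j v) = r v) → (∀ v ∈ L, ∀ j k, zz σ j (k + 1) v ≠ v) →
    ∃ W ⊆ A, MeasurableSet W ∧
      (∀ v ∈ W, ∀ j k, 1 ≤ k → k ≤ r v → zz σ j k v ∉ W) ∧
      ∀ v ∈ A, ∃ j k, k ≤ r v ∧ zz σ j k v ∈ W

/-- ORI: Borel orientations of broken lines and colourings of even cycles. -/
def S_ORI : Prop :=
  ∀ (X : Type) [MeasurableSpace X] [StandardBorelSpace X] (σ : Bool → X → X) (D : Set X),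
    (∀ j, Measurable (σ j)) → MeasurableSet D →
    (∀ v ∈ D, ∀ j, σ j (σ j v) = v) → (∀ v ∈ D, ∀ j, σ j v ≠ v) →
    (∀ v ∈ D, (∃ j k, zz σ j k v ∉ D) ∨ ∃ j k, 1 ≤ k ∧ zz σ j k v = v) →
    ∃ c : X → Bool, Measurable c ∧
      (∀ v ∈ D, ∀ j, σ j v ∈ D → c (σ j v) ≠ c v) ∧
      ∀ v ∈ D, (∃ j k, zz σ j k v ∉ D) → ∃ k, zz σ (c v) k v ∉ D

/-- LAB: the labelling. -/
def S_LAB : Prop :=
  ∀ (X : Type) [MeasurableSpace X] [StandardBorelSpace X] (R : X → X → Prop),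
    Equivalence R → ∀ S : Str X R, ∃ (t c : X → Bool) (τ : X → Fin 4),
      Measurable t ∧ Measurable c ∧ Measurable τ ∧
      ∀ v ∈ S.Gd, (∀ w, R v w → w ∉ S.Vinf ∧ w ∉ S.Binf) →
        FRule S.Gd S.σ S.ch t c τ v

/-- Two measure preserving fixed point free involutions with ergodic composition. -/
structure Dih (Y : Type) [MeasurableSpace Y] (ν : Measure Y) (σ : Bool → Y → Y) : Prop where
  mp : ∀ j, MeasurePreserving (σ j) ν ν
  inv : ∀ j y, σ j (σ j y) = y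
  ne : ∀ j y, σ j y ≠ y
  erg : Ergodic (fun y => σ true (σ false y)) ν

/-- ROT: there are two such involutions. -/
def S_ROT : Prop :=
  ∃ (Y : Type) (_ : MeasurableSpace Y) (_ : StandardBorelSpace Y) (ν : Measure Y)
    (_ : IsProbabilityMeasure ν) (σ : Bool → Y → Y), Dih Y ν σ

/-- The line neighbours on `ℕ × Y`. -/
def σN {Y : Type} (σ : Bool → Y → Y) (j : Bool) (v : ℕ × Y) : ℕ × Y := (v.1, σ j v.2)

/-- The number of a child. -/
def chn (i : Bool) (n : ℕ) : ℕ := 2 * n + i.toNat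

/-- The children on `ℕ × Y`. -/
def chN {Y : Type} (i : Bool) (v : ℕ × Y) : ℕ × Y := (chn i v.1, v.2)

/-- NEG: there is no labelling on `ℕ × Y`. -/
def S_NEG : Prop :=
  ∀ (Y : Type) [MeasurableSpace Y] [StandardBorelSpace Y] (ν : Measure Y)
    [IsProbabilityMeasure ν] (σ : Bool → Y → Y), Dih Y ν σ →
    ∀ (t c : ℕ × Y → Bool) (τ : ℕ × Y → Fin 4), Measurable t → Measurable c → Measurable τ →
      (∀ n, ∀ᵐ y ∂ν, FRule Set.univ (σN σ) chN t c τ (n, y)) → False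

/-- The vertices of the gadget of a point. -/
inductive J
  | hub
  | port (j : Fin 5)
  | leaf (j k : Fin 5)
  deriving DecidableEq, Fintype

instance instMeasurableSpaceJ : MeasurableSpace J := ⊤

/-- The number of leaves at a port. -/
def lf : Fin 5 → ℕ := ![0, 1, 2, 4, 5]

/-- The vertices of the graph for `Y`. -/
abbrev V0 (Y : Type) := (ℕ × J) × Y

/-- The edges of the graph for `Y`, in one direction. -/
def rel0 {Y : Type} (σ : Bool → Y → Y) : V0 Y → V0 Y → Prop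
  | ((n, .hub), y), ((n', .port _), y') => n' = n ∧ y' = y
  | ((n, .port j), y), ((n', .leaf j' k), y') => n' = n ∧ y' = y ∧ j' = j ∧ k.val < lf j
  | ((n, .port j), y), ((n', .port j'), y') =>
      (j = 0 ∧ j' = 0 ∧ n' = n ∧ y' = σ false y) ∨ (j = 1 ∧ j' = 1 ∧ n' = n ∧ y' = σ true y) ∨
      (j = 2 ∧ j' = 4 ∧ n' = chn false n ∧ y' = y) ∨ (j = 3 ∧ j' = 4 ∧ n' = chn true n ∧ y' = y)
  | _, _ => False

/-- The graph for `Y`. -/
def G0 {Y : Type} (σ : Bool → Y → Y) : SimpleGraph (V0 Y) := SimpleGraph.fromRel (rel0 σ)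

/-- G0A: degrees and encoded structure of the graph. -/
def S_G0A : Prop :=
  ∀ (Y : Type) (σ : Bool → Y → Y), (∀ j y, σ j (σ j y) = y) → (∀ j y, σ j y ≠ y) →
    (∀ v, ((G0 σ).neighborSet v).encard ≤ 7) ∧
    (∀ j n y w, Sr (G0 σ) j ((n, .hub), y) w ↔ w = ((n, .hub), σ j y)) ∧
    (∀ i n y w, Cr (G0 σ) i ((n, .hub), y) w ↔ w = ((chn i n, .hub), y)) ∧
    ∀ i n y w, Cr (G0 σ) i w ((n, .hub), y) ↔ w = ((n / 2, .hub), y) ∧ n = chn i (n / 2)

/-- G0B: the graph is Borel and the measure is quasi-invariant. -/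
def S_G0B : Prop :=
  ∀ (Y : Type) [MeasurableSpace Y] [StandardBorelSpace Y] (ν : Measure Y)
    [IsProbabilityMeasure ν] (σ : Bool → Y → Y), Dih Y ν σ →
    MeasurableSet {p : V0 Y × V0 Y | (G0 σ).Adj p.1 p.2} ∧
    ∃ κ : Measure (ℕ × J), IsProbabilityMeasure κ ∧ (∀ a, κ {a} ≠ 0) ∧
      ∀ A : Set (V0 Y), (κ.prod ν) A = 0 →
        (κ.prod ν) {x | ∃ y ∈ A, (G0 σ).Reachable y x} = 0

/-- All parts give the result. -/
def S_MAIN : Prop :=
  ∃ (Δ : ℕ) (L : LCL Δ), (∀ M : MeasuredGraph Δ, M.MTP → L.SolvableOn M) ∧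
    ∃ M : MeasuredGraph Δ, ¬ L.SolvableOn M

end Pool.Agent.W927.MT
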