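import Pool.Agent.W927.MT.Stm

/-!
Alternating walks on lines.
-/

namespace Pool.Agent.W927.MT

section

variable {X : Type} {σ : Bool → X → X} {A : Set X}

theorem zz_zero (j : Bool) (v : X) : zz σ j 0 v = v := by
  cases j <;> rfl

theorem zz_succ (j : Bool) (k : ℕ) (v : X) : zz σ j (k + 1) v = zz σ (!j) k (σ j v) := by
  cases j <;> rfl

/-- The type of step `k + 1` of an alternating walk. -/
def lt (j : Bool) (k : ℕ) : Bool := if k % 2 = 0 then j else !j

theorem lt_not (j : Bool) (k : ℕ) : lt (!j) k = lt j (k + 1) := by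
  unfold lt
  rcases Nat.mod_two_eq_zero_or_one k with h | h
  · have : (k + 1) % 2 = 1 := by omega
    simp [h, this]
  · have : (k + 1) % 2 = 0 := by omega
    simp [h, this]

theorem lt_congr (j : Bool) {k l : ℕ} (h : k % 2 = l % 2) : lt j k = lt j l := by
  unfold lt; rw [h]

theorem lt_congr' (j : Bool) {k l : ℕ} (h : k % 2 ≠ l % 2) : lt (!j) k = lt j l := by
  rw [lt_not]; exact lt_congr j (by omega)

theorem zz_succ' (j : Bool) (k : ℕ) (v : X) :
    zz σ j (k + 1) v = σ (lt j k) (zz σ j k v) := by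
  induction k generalizing j v with
  | zero => rw [zz_succ, zz_zero, zz_zero]; simp [lt]
  | succ k ih =>
    rw [zz_succ, ih, zz_succ, lt_not]

theorem zz_mem (hA : ∀ v ∈ A, ∀ j, σ j v ∈ A) {v : X} (hv : v ∈ A) (j : Bool) (k : ℕ) :
    zz σ j k v ∈ A := by
  induction k with
  | zero => rw [zz_zero]; exact hv
  | succ k ih => rw [zz_succ']; exact hA _ ih _

/-- Going back one step. -/
theorem zz_back (hA : ∀ v ∈ A, ∀ j, σ j v ∈ A) (hi : ∀ v ∈ A, ∀ j, σ j (σ j v) = v)
    {v : X} (hv : v ∈ A) (j : Bool) (k : ℕ) :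
    σ (lt j k) (zz σ j (k + 1) v) = zz σ j k v := by
  rw [zz_succ', hi _ (zz_mem hA hv j k)]

/-- The points of the line of `v`. -/
def Lp (σ : Bool → X → X) (v : X) : Set X := {w | ∃ j k, w = zz σ j k v}

theorem self_Lp (v : X) : v ∈ Lp σ v := ⟨false, 0, (zz_zero _ _).symm⟩

theorem Lp_σ (hA : ∀ v ∈ A, ∀ j, σ j v ∈ A) (hi : ∀ v ∈ A, ∀ j, σ j (σ j v) = v)
    {v : X} (hv : v ∈ A) {w : X} (hw : w ∈ Lp σ v) (j : Bool) : σ j w ∈ Lp σ v := by
  obtain ⟨i, k, rfl⟩ := hw
  cases k with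
  | zero => rw [zz_zero]; exact ⟨j, 1, by rw [zz_succ, zz_zero]⟩
  | succ k =>
    by_cases h : j = lt i k
    · subst h
      exact ⟨i, k, zz_back hA hi hv i k⟩
    · have h2 : j = lt i (k + 1) := by
        rw [← lt_not]
        have : lt (!i) k = ! lt i k := by unfold lt; split_ifs <;> rfl
        rw [this]
        cases j <;> cases hh : lt i k <;> simp_all
      subst h2
      exact ⟨i, k + 2, (zz_succ' i (k + 1) v).symm⟩

theorem Lp_zz (hA : ∀ v ∈ A, ∀ j, σ j v ∈ A) (hi : ∀ v ∈ A, ∀ j, σ j (σ j v) = v)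
    {v : X} (hv : v ∈ A) {w : X} (hw : w ∈ Lp σ v) (j : Bool) (k : ℕ) :
    zz σ j k w ∈ Lp σ v := by
  induction k with
  | zero => rw [zz_zero]; exact hw
  | succ k ih => rw [zz_succ']; exact Lp_σ hA hi hv ih _

/-- A return takes an even number of steps. -/
theorem ret_even (hA : ∀ v ∈ A, ∀ j, σ j v ∈ A) (hi : ∀ v ∈ A, ∀ j, σ j (σ j v) = v)
    (hn : ∀ v ∈ A, ∀ j, σ j v ≠ v) {v : X} (hv : v ∈ A) {j : Bool} {k : ℕ}
    (h : zz σ j k v = v) : k % 2 = 0 := by
  by_contra hk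
  obtain ⟨q, rfl⟩ : ∃ q, k = 2 * q + 1 := ⟨k / 2, by omega⟩
  have key : ∀ i ≤ q, zz σ j (2 * q + 1 - i) v = zz σ j i v := by
    intro i hi'
    induction i with
    | zero => rw [Nat.sub_zero, h, zz_zero]
    | succ i ih =>
      have ih := ih (by omega)
      have e1 : 2 * q + 1 - i = (2 * q + 1 - (i + 1)) + 1 := by omega
      have h1 := zz_back hA hi hv j (2 * q + 1 - (i + 1))
      rw [← e1, ih] at h1
      rw [← h1, zz_succ']
      rw [lt_congr j (k := 2 * q + 1 - (i + 1)) (l := i) (by omega)]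
  have h1 := key q le_rfl
  have e1 : 2 * q + 1 - q = q + 1 := by omega
  rw [e1, zz_succ'] at h1
  exact hn _ (zz_mem hA hv j q) _ h1

/-- A return in one direction gives a return in the other direction. -/
theorem ret_other (hA : ∀ v ∈ A, ∀ j, σ j v ∈ A) (hi : ∀ v ∈ A, ∀ j, σ j (σ j v) = v)
    (hn : ∀ v ∈ A, ∀ j, σ j v ≠ v) {v : X} (hv : v ∈ A) {j : Bool} {k : ℕ}
    (h : zz σ j k v = v) : zz σ (!j) k v = v := by
  have hk := ret_even hA hi hn hv h
  have key : ∀ i ≤ k, zz σ (!j) i v = zz σ j (k - i) v := by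
    intro i hi'
    induction i with
    | zero => rw [Nat.sub_zero, h, zz_zero]
    | succ i ih =>
      have ih := ih (by omega)
      have e1 : k - i = (k - (i + 1)) + 1 := by omega
      have h1 := zz_back hA hi hv j (k - (i + 1))
      rw [zz_succ', ih, e1, ← h1, lt_congr' j (k := i) (l := k - (i + 1)) (by omega)]
  have := key k le_rfl
  rwa [Nat.sub_self, zz_zero] at this

/-- Returns are invariant along the line. -/
theorem ret_σ (hA : ∀ v ∈ A, ∀ j, σ j v ∈ A) (hi : ∀ v ∈ A, ∀ j, σ j (σ j v) = v)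
    (hn : ∀ v ∈ A, ∀ j, σ j v ≠ v) {v : X} (hv : v ∈ A) (j : Bool)
    (h : ∃ i k, zz σ i (k + 1) v = v) : ∃ i k, zz σ i (k + 1) (σ j v) = σ j v := by
  obtain ⟨i, k, h⟩ := h
  have h' : zz σ j (k + 1) v = v := by
    by_cases e : i = j
    · rw [← e]; exact h
    · have : j = !i := by cases i <;> cases j <;> simp_all
      rw [this]; exact ret_other hA hi hn hv h
  have hk := ret_even hA hi hn hv h'
  refine ⟨!j, k, ?_⟩
  rw [← zz_succ, zz_succ', h']
  congr 1
  simp [lt, hk]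

end

end Pool.Agent.W927.MT
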